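import Pool.Agent.H65.TIE.Elim
import Pool.Agent.H46.MIC.Ev

/-!
# Restriction of a claim
-/

set_option autoImplicit false

namespace Pool.TIE

open Finset MvPolynomial
open Pool.Agent.H49.Ent Pool.Agent.H32.Dense Pool.STK Pool.BFL Pool.MIC
open Pool.GLM (ml ml_nn)

/-! ### Entropy -/

section Ent

variable {Ω : Type} [Fintype Ω] {p : Ω → ℝ}

/-- Mutual information is symmetric. -/
lemma CH_symm (hp : ∀ ω, 0 ≤ p ω) {S T U : Type} (X : Ω → S) (Y : Ω → T) (W : Ω → U) :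
    CH p X W - CH p X (fun ω => (Y ω, W ω)) = CH p Y W - CH p Y (fun ω => (X ω, W ω)) := by
  have h1 := CH_chain hp X Y W
  have h2 := CH_chain hp Y X W
  have h3 := CH_swl hp X Y W
  linarith

/-- A function of `nu` and the context is not more dependent. -/
lemma CH_indR (hp : ∀ ω, 0 ≤ p ω) {S T U V : Type} {A : Ω → S} {nu : Ω → T} {W : Ω → U}
    {g : Ω → V} {θ : ℝ} (hg : Det p (fun ω => (nu ω, W ω)) g)
    (h : CH p nu W ≤ CH p nu (fun ω => (A ω, W ω)) + θ) :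
    CH p g W ≤ CH p g (fun ω => (A ω, W ω)) + θ := by
  have h1 := CH_symm hp nu A W
  have h2 := CH_symm hp g A W
  have h3 : CH p A (fun ω => (nu ω, W ω)) ≤ CH p A (fun ω => (g ω, W ω)) :=
    CH_mono_cond hp fun w w' a b e =>
      Prod.ext (hg w w' a b e) (Prod.ext_iff.1 e).2
  linarith

/-- The box bound. -/
lemma CH_box_le (hp : ∀ ω, 0 ≤ p ω) (h1 : ∑ ω, p ω = 1) {m : ℕ} {T : Type} (M : Finset (Fin m))
    (X : ℕ) (V : Ω → Fin m → ℤ) (W : Ω → T)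
    (hV : ∀ ω, ∀ c ∈ M, 0 ≤ V ω c ∧ V ω c < 2 ^ X) (h0 : ∀ ω, ∀ c ∉ M, V ω c = 0) :
    CH p V W ≤ M.card * (X * Real.log 2) := by
  classical
  have h := CH_le_card hp h1 V W (fun _ => Fintype.piFinset fun c : Fin m =>
      if c ∈ M then Finset.Ico (0 : ℤ) (2 ^ X) else {0}) (fun ω _ => by
    rw [Fintype.mem_piFinset]
    intro c
    by_cases hc : c ∈ M
    · rw [if_pos hc, Finset.mem_Ico]; exact hV ω c hc
    · rw [if_neg hc, Finset.mem_singleton]; exact h0 ω c hc)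
  refine h.trans (le_of_eq ?_)
  have hcard : (Fintype.piFinset fun c : Fin m =>
      if c ∈ M then Finset.Ico (0 : ℤ) (2 ^ X) else {0}).card = (2 ^ X) ^ M.card := by
    rw [Fintype.card_piFinset]
    have : ∀ c : Fin m, (if c ∈ M then Finset.Ico (0 : ℤ) (2 ^ X) else {0}).card =
        if c ∈ M then 2 ^ X else 1 := by
      intro c
      by_cases hc : c ∈ M
      · rw [if_pos hc, if_pos hc, Int.card_Ico]
        simp only [sub_zero]
        exact_mod_cast Int.toNat_natCast (2 ^ X)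
      · rw [if_neg hc, if_neg hc, Finset.card_singleton]
    simp_rw [this]
    rw [Finset.prod_ite_mem, Finset.univ_inter, Finset.prod_const]
  simp only [hcard]
  rw [Ex_const h1]
  push_cast
  rw [Real.log_pow, Real.log_pow]

/-- A variable with values in `{-1, 0, 1}`. -/
lemma CH_three (hp : ∀ ω, 0 ≤ p ω) (h1 : ∑ ω, p ω = 1) {T : Type} (E : Ω → ℤ) (W : Ω → T)
    (h : ∀ ω, |E ω| ≤ 1) : CH p E W ≤ Real.log 3 := by
  classical
  have h := CH_le_card hp h1 E W (fun _ => Finset.Icc (-1 : ℤ) 1) (fun ω _ => by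
    have := abs_le.1 (h ω)
    exact Finset.mem_Icc.2 this)
  refine h.trans (le_of_eq ?_)
  have : (Finset.Icc (-1 : ℤ) 1).card = 3 := by decide
  simp only [this]
  rw [Ex_const h1]
  norm_num

end Ent

/-! ### Digits -/

lemma dg_of_dg {h h' : ℕ} (hh : h' ≤ h) {x y : ℝ} (e : dg h x = dg h y) : dg h' x = dg h' y := by
  have key : ∀ z : ℝ, dg h' z = dg h z / ((2 ^ (h - h') : ℕ) : ℤ) := by
    intro z
    unfold dg
    rw [← Int.floor_div_natCast]
    congr 1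
    push_cast
    have : (2 : ℝ) ^ h = 2 ^ h' * 2 ^ (h - h') := by rw [← pow_add]; congr 1; omega
    rw [this]
    field_simp
  rw [key, key, e]

lemma dg_nearR {h : ℕ} {x y : ℝ} (hxy : 2 ^ h * |x - y| ≤ 1) : |dg h x - dg h y| ≤ 1 := by
  unfold dg
  have h0 : (0 : ℝ) < 2 ^ h := by positivity
  have h1 : |2 ^ h * x - 2 ^ h * y| ≤ 1 := by
    rw [← mul_sub, abs_mul, abs_of_pos h0]; exact hxy
  have h2 := abs_le.1 h1
  rw [abs_le]
  constructor
  · have : ⌊2 ^ h * y⌋ ≤ ⌊2 ^ h * x + 1⌋ := Int.floor_le_floor (by linarith [h2.1])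
    rw [Int.floor_add_one] at this
    linarith
  · have : ⌊2 ^ h * x⌋ ≤ ⌊2 ^ h * y + 1⌋ := Int.floor_le_floor (by linarith [h2.2])
    rw [Int.floor_add_one] at this
    linarith

/-! ### The eliminated polynomial -/

namespace Dat

variable {m : ℕ} (D : Dat m)

/-- `F` in the coordinates of `M'`. -/
noncomputable def rst (M' : Finset (Fin m)) (F : D.Ω → Pl m) (ω : D.Ω) : Pl m :=
  bind₁ (elim M' (fun c => (D.ht c ω : ℝ) / 2 ^ D.X) (D.s ω) m) (F ω)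

lemma rst_congr {M' : Finset (Fin m)} {F : D.Ω → Pl m} {ω ω' : D.Ω} (hF : F ω = F ω')
    (ho : D.out M' ω = D.out M' ω') : D.rst M' F ω = D.rst M' F ω' := by
  unfold rst
  rw [hF, elim_congr (n' := fun c => (D.ht c ω' : ℝ) / 2 ^ D.X) (s' := D.s ω')
    (fun c hc => by simp only [(D.out_some ho hc).1]) (fun c hc => (D.out_some ho hc).2)]

lemma v_le (hV : ∀ ω c, 0 ≤ D.V ω c ∧ D.V ω c < 2 ^ D.X) (ω : D.Ω) (c : Fin m) :
    |D.v ω c| ≤ 1 := by
  unfold v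
  have h1 : (0 : ℝ) ≤ D.V ω c := by exact_mod_cast (hV ω c).1
  have h2 : (D.V ω c : ℝ) < 2 ^ D.X := by exact_mod_cast (hV ω c).2
  rw [abs_of_nonneg (by positivity), div_le_one (by positivity)]
  exact h2.le

lemma ht_near (c : Fin m) (ω : D.Ω) :
    |D.v ω c - eval (D.v ω) (D.s ω c) - (D.ht c ω : ℝ) / 2 ^ D.X| ≤ ((2 : ℝ) ^ D.X)⁻¹ := by
  unfold ht dg
  set x := D.v ω c - eval (D.v ω) (D.s ω c)
  have h0 : (0 : ℝ) < 2 ^ D.X := by positivity
  have h1 := Int.floor_le (2 ^ D.X * x)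
  have h2 := Int.lt_floor_add_one (2 ^ D.X * x)
  have e : x - (⌊2 ^ D.X * x⌋ : ℝ) / 2 ^ D.X = (2 ^ D.X * x - ⌊2 ^ D.X * x⌋) * ((2 : ℝ) ^ D.X)⁻¹ := by
    field_simp
  rw [e, abs_mul, abs_of_pos (inv_pos.2 h0)]
  have h3 : |2 ^ D.X * x - (⌊2 ^ D.X * x⌋ : ℝ)| ≤ 1 := by
    rw [abs_of_nonneg (by linarith)]; linarith
  calc |2 ^ D.X * x - (⌊2 ^ D.X * x⌋ : ℝ)| * ((2 : ℝ) ^ D.X)⁻¹ ≤ 1 * ((2 : ℝ) ^ D.X)⁻¹ :=
        mul_le_mul_of_nonneg_right h3 (inv_pos.2 h0).le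
    _ = _ := one_mul _

end Dat

/-- The deterministic part: degree, coefficients and value of the eliminated polynomial. -/
lemma rst_det (m K : ℕ) : ∃ (K' : ℕ) (C : ℝ), 5 ≤ C ∧ ∀ (D : Dat m) (M' : Finset (Fin m))
    (b θ : ℝ) (F : D.Ω → Pl m), 0 ≤ b → Hyp D K b θ → C * (b + 1) ≤ D.X →
    (∀ ω, (F ω).totalDegree ≤ K) → (∀ ω α, |coeff α (F ω)| ≤ (2 : ℝ) ^ b) → ∀ ω,
      (D.rst M' F ω).vars ⊆ M' ∧ (D.rst M' F ω).totalDegree ≤ K' ∧
      (∀ α, |coeff α (D.rst M' F ω)| ≤ (2 : ℝ) ^ (C * (b + 1))) ∧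
      |eval (D.v ω) (D.rst M' F ω) - eval (D.v ω) (F ω)| ≤
        (2 : ℝ) ^ (C * (b + 1)) * ((2 : ℝ) ^ D.X)⁻¹ := by
  -- the constant of one step
  obtain ⟨N₀, hN₀⟩ : ∃ N₀ : ℕ, (4 + K * 2 ^ K) * (K + 1) ^ m ≤ 2 ^ N₀ :=
    ⟨(4 + K * 2 ^ K) * (K + 1) ^ m, (Nat.lt_two_pow_self).le⟩
  refine ⟨K * (K + 1) ^ m, ((N₀ : ℝ) + 1) * (m + 1 + (1 + K * ce K m)) + 5, ?_, ?_⟩
  · have : (0 : ℝ) ≤ ((N₀ : ℝ) + 1) * (m + 1 + (1 + K * ce K m)) := by positivity
    linarith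
  intro D M' b θ F hb hH hX hFd hFc ω
  set C : ℝ := ((N₀ : ℝ) + 1) * (m + 1 + (1 + K * ce K m)) + 5 with hC
  set S : ℝ := ((K : ℝ) + 1) ^ m * 2 ^ b with hS
  set T : ℝ := (4 + K * 2 ^ K) * S with hT
  have h2b : (1 : ℝ) ≤ 2 ^ b := Real.one_le_rpow (by norm_num) hb
  have hK1 : (1 : ℝ) ≤ ((K : ℝ) + 1) ^ m := one_le_pow₀ (by
    have := Nat.cast_nonneg (α := ℝ) K; linarith)
  have hS1 : 1 ≤ S := by
    rw [hS]; nlinarith
  have hKK : (0 : ℝ) ≤ K * 2 ^ K := by positivity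
  have hT4 : 4 * S ≤ T := by rw [hT]; nlinarith
  have hT1 : 1 ≤ T := by linarith
  have hTK : (1 + K * 2 ^ K) * S ≤ T := by rw [hT]; nlinarith
  have hTp : T ≤ (2 : ℝ) ^ (((N₀ : ℝ) + 1) * (b + 1)) := by
    have e1 : T = ((4 + K * 2 ^ K) * ((K : ℝ) + 1) ^ m) * 2 ^ b := by rw [hT, hS]; ring
    have e2 : ((4 + K * 2 ^ K) * ((K : ℝ) + 1) ^ m) ≤ (2 : ℝ) ^ (N₀ : ℝ) := by
      rw [Real.rpow_natCast]; exact_mod_cast hN₀
    rw [e1]
    calc ((4 + K * 2 ^ K) * ((K : ℝ) + 1) ^ m) * (2 : ℝ) ^ b ≤ 2 ^ (N₀ : ℝ) * 2 ^ b :=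
          mul_le_mul_of_nonneg_right e2 (by positivity)
      _ = 2 ^ ((N₀ : ℝ) + b) := by rw [← Real.rpow_add (by norm_num)]
      _ ≤ _ := Real.rpow_le_rpow_of_exponent_le (by norm_num) (by
          have := Nat.cast_nonneg (α := ℝ) N₀; nlinarith)
  have hTpow : ∀ j : ℕ, (j : ℝ) ≤ m + 1 + (1 + K * ce K m) → T ^ j ≤ (2 : ℝ) ^ (C * (b + 1)) := by
    intro j hj
    calc T ^ j ≤ ((2 : ℝ) ^ (((N₀ : ℝ) + 1) * (b + 1))) ^ j :=
          pow_le_pow_left₀ (by linarith) hTp j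
      _ = (2 : ℝ) ^ (((N₀ : ℝ) + 1) * (b + 1) * j) := by
          rw [← Real.rpow_natCast, ← Real.rpow_mul (by norm_num)]
      _ ≤ _ := by
          refine Real.rpow_le_rpow_of_exponent_le (by norm_num) ?_
          have h3 : 0 ≤ ((N₀ : ℝ) + 1) * (b + 1) := by positivity
          have h4 := mul_le_mul_of_nonneg_left hj h3
          rw [hC]
          nlinarith
  have h2X : (2 : ℝ) ^ (C * (b + 1)) * ((2 : ℝ) ^ D.X)⁻¹ ≤ 1 := by
    rw [← div_eq_mul_inv, div_le_one (by positivity), ← Real.rpow_natCast]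
    exact Real.rpow_le_rpow_of_exponent_le (by norm_num) hX
  have hms : ∀ c, ml (D.s ω c) ≤ S := fun c =>
    ml_le_of_cb (hH.s_deg ω c) (by positivity) (hH.s_cf ω c)
  have hmF : ml (F ω) ≤ S := ml_le_of_cb (hFd ω) (by positivity) (hFc ω)
  have hv := D.v_le hH.V_lt ω
  have hn : ∀ c, |(D.ht c ω : ℝ) / 2 ^ D.X| ≤ 2 + S := by
    intro c
    have h1 := D.ht_near c ω
    have h2 := hv c
    have h3 : |eval (D.v ω) (D.s ω c)| ≤ S := (eval_ml2 hv).trans (hms c)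
    have h4 : ((2 : ℝ) ^ D.X)⁻¹ ≤ 1 := inv_le_one_of_one_le₀ (one_le_pow₀ (by norm_num))
    rw [abs_le] at h1 h2 h3 ⊢
    constructor <;> linarith [h1.1, h1.2, h2.1, h2.2, h3.1, h3.2]
  have hD0 : (0 : ℝ) ≤ ((2 : ℝ) ^ D.X)⁻¹ := by positivity
  have hmul : ∀ j : ℕ, (j : ℝ) ≤ m + 1 + (1 + K * ce K m) → ((2 : ℝ) ^ D.X)⁻¹ * T ^ j ≤ 1 := by
    intro j hj
    refine le_trans ?_ h2X
    rw [mul_comm]
    exact mul_le_mul_of_nonneg_right (hTpow j hj) hD0
  have hce : (0 : ℝ) ≤ 1 + K * ce K m := by positivity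
  refine ⟨?_, ?_, ?_, ?_⟩
  · exact vars_bind_sub fun i => elim_vars _ _
  · exact deg_bind (fun i => elim_deg (fun c => hH.s_deg ω c) m i) (hFd ω)
  · intro α
    refine (coeff_le_mlR _ α).trans ?_
    have h1 : ml (D.rst M' F ω) ≤ ml (F ω) * (T ^ ce K m) ^ K :=
      ml_bind (one_le_pow₀ hT1) (fun i => elim_ml (fun c => hH.s_deg ω c) hS1 hms
        (fun c _ => hn c) hT4 m i) (hFd ω)
    refine h1.trans ?_
    have h2 : ml (F ω) * (T ^ ce K m) ^ K ≤ T ^ (1 + K * ce K m) := by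
      rw [pow_add, pow_one, mul_comm K, pow_mul]
      refine mul_le_mul_of_nonneg_right ?_ (by positivity)
      linarith
    refine h2.trans (hTpow _ ?_)
    push_cast
    have : (0 : ℝ) ≤ m := Nat.cast_nonneg m
    linarith
  · unfold Dat.rst
    rw [eval_bind]
    have hval : ∀ c : Fin m, |eval (D.v ω) (elim M' (fun c => (D.ht c ω : ℝ) / 2 ^ D.X) (D.s ω) m c)
        - D.v ω c| ≤ ((2 : ℝ) ^ D.X)⁻¹ * T ^ m := fun c =>
      elim_val (fun c => hH.s_deg ω c) hS1 hms hv (hH.s_vars ω) hD0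
        (fun c _ => D.ht_near c ω) hTK m (fun j hj => hmul j (by
          have : (j : ℝ) ≤ m := by exact_mod_cast hj.le
          linarith)) c c.isLt
    have hm1 : ((2 : ℝ) ^ D.X)⁻¹ * T ^ m ≤ 1 := hmul m (by linarith)
    have hw : ∀ c : Fin m, |eval (D.v ω) (elim M' (fun c => (D.ht c ω : ℝ) / 2 ^ D.X) (D.s ω) m c)|
        ≤ 2 := fun c => by
      have h1 := hval c
      have h2 := hv c
      rw [abs_le] at h1 h2 ⊢
      constructor <;> linarith [h1.1, h1.2, h2.1, h2.2]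
    have h1 := lip2 (R := 2) (by norm_num) (hFd ω) hw (fun i => (hv i).trans (by norm_num))
      (by positivity) hval
    refine h1.trans ?_
    have h2 : ml (F ω) * (K * 2 ^ K * (((2 : ℝ) ^ D.X)⁻¹ * T ^ m)) ≤
        ((2 : ℝ) ^ D.X)⁻¹ * T ^ (m + 1) := by
      rw [pow_succ]
      have h3 : ml (F ω) * (K * 2 ^ K) ≤ T := by
        rw [hT]
        have := mul_le_mul_of_nonneg_right hmF hKK
        nlinarith
      have h4 := mul_le_mul_of_nonneg_left h3 (show 0 ≤ ((2 : ℝ) ^ D.X)⁻¹ * T ^ m by positivity)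
      nlinarith
    refine h2.trans ?_
    rw [mul_comm]
    refine mul_le_mul_of_nonneg_right (hTpow _ ?_) hD0
    push_cast
    linarith

/-- **Restriction** to any smaller set. -/
theorem restr_sub (m K : ℕ) : ∃ (K' : ℕ) (C : ℝ), 1 ≤ C ∧
    ∀ (D : Dat m) (M M' : Finset (Fin m)) (h h' : ℕ) (b θ : ℝ) (F : D.Ω → Pl m), M' ⊆ M →
      0 ≤ b → 0 ≤ θ → h' ≤ h → (h' : ℝ) + C * (b + 1) ≤ D.X → Hyp D K b θ →
      (M'.card * (D.X * Real.log 2) - θ ≤
        CH D.p (D.on M') (fun ω => (D.out M' ω, D.z ω))) →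
      Claim D M h K b θ F →
      ∃ G : D.Ω → Pl m, Claim D M' h' K' (C * (b + 1)) (C * (θ + b + 1)) G := by
  obtain ⟨K', C, hC5, hdet⟩ := rst_det m K
  refine ⟨K', C, by linarith, ?_⟩
  intro D M M' h h' b θ F hsub hb hθ hh hhX hH hfull hcl
  have hX : C * (b + 1) ≤ D.X := by
    have := Nat.cast_nonneg (α := ℝ) h'
    linarith
  have hd := hdet D M' b θ F hb hH hX hcl.deg hcl.cf
  set G := D.rst M' F with hG
  have hp := hH.isLaw.nonneg
  have h1 := hH.isLaw.sum_one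
  -- `out M` is a function of `out M'`
  have hout : ∀ ω ω' : D.Ω, D.out M' ω = D.out M' ω' → D.out M ω = D.out M ω' := by
    intro ω ω' e
    funext i
    by_cases hi : i ∈ M
    · unfold Dat.out; rw [if_pos hi, if_pos hi]
    · have := D.out_some e (fun h => hi (hsub h))
      unfold Dat.out
      rw [if_neg hi, if_neg hi, this.1, this.2]
  -- `out` is a function of the position and the shapes
  have houtV : ∀ (N : Finset (Fin m)) (ω ω' : D.Ω), D.V ω = D.V ω' → D.s ω = D.s ω' →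
      D.out N ω = D.out N ω' := by
    intro N ω ω' e1 e2
    funext i
    unfold Dat.out Dat.ht Dat.v
    rw [e1, e2]
  have honV : ∀ (N : Finset (Fin m)) (ω ω' : D.Ω), D.V ω = D.V ω' → D.on N ω = D.on N ω' := by
    intro N ω ω' e1
    unfold Dat.on
    rw [e1]
  have hVdet : ∀ (N : Finset (Fin m)) (ω ω' : D.Ω), D.out N ω = D.out N ω' →
      D.on N ω = D.on N ω' → D.V ω = D.V ω' := fun N ω ω' e1 e2 =>
    D.V_det_out hH.s_vars e1 e2
  refine ⟨G, ⟨fun ω => (hd ω).1, fun ω => (hd ω).2.1, fun ω α => (hd ω).2.2.1 α, ?_, ?_⟩⟩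
  · -- few
    have a1 : CH D.p G (fun ω => (D.out M' ω, D.z ω)) ≤
        CH D.p F (fun ω => (D.out M' ω, D.z ω)) :=
      CH_mono_left hp fun ω ω' _ _ e => by
        simp only [Prod.mk.injEq] at e
        exact D.rst_congr e.1 e.2.1
    have a2 : CH D.p F (fun ω => (D.out M' ω, D.z ω)) ≤ CH D.p F (fun ω => (D.out M ω, D.z ω)) :=
      CH_mono_cond hp fun ω ω' _ _ e => by
        simp only [Prod.mk.injEq] at e ⊢
        exact ⟨hout _ _ e.1, e.2⟩
    have a3 := hcl.few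
    have a4 : θ ≤ C * (θ + b + 1) := by nlinarith
    linarith
  · -- full
    set Z := D.z
    set Fh := D.hF h' F
    have hcl2 := hcl.full
    have hfew := hcl.few
    -- (ii): the height over `F` to `h'` digits is independent of the coordinates of `M`
    have b1 : CH D.p (D.on M) (fun ω => (F ω, (D.out M ω, Z ω))) ≤
        M.card * (D.X * Real.log 2) :=
      CH_box_le hp h1 M D.X (D.on M) _ (fun ω i hi => by
        unfold Dat.on; rw [if_pos hi]; exact hH.V_lt ω i) (fun ω i hi => by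
        unfold Dat.on; rw [if_neg hi])
    have b2 : CH D.p (D.on M) (fun ω => (D.hF h F ω, (F ω, (D.out M ω, Z ω)))) ≤
        CH D.p (D.on M) (fun ω => (Fh ω, (F ω, (D.out M ω, Z ω)))) :=
      CH_mono_cond hp fun ω ω' _ _ e => by
        simp only [Prod.mk.injEq] at e ⊢
        exact ⟨dg_of_dg hh e.1, e.2⟩
    have b3 := CH_symm hp (D.on M) Fh (fun ω => (F ω, (D.out M ω, Z ω)))
    have b4 : CH D.p Fh (fun ω => (F ω, (D.out M ω, Z ω))) ≤
        CH D.p Fh (fun ω => (D.on M ω, (F ω, (D.out M ω, Z ω)))) + θ := by linarith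
    -- (iii)
    have b5 : CH D.p Fh (fun ω => (D.on M ω, (F ω, (D.out M ω, Z ω)))) ≤
        CH D.p Fh (fun ω => (F ω, (D.V ω, Z ω))) :=
      CH_mono_cond hp fun ω ω' _ _ e => by
        simp only [Prod.mk.injEq] at e ⊢
        exact ⟨e.2.1, hVdet M _ _ e.2.2.1 e.1, e.2.2.2⟩
    -- (iv)
    have c1 := hH.nu_s
    have c2 := CH_chain hp D.nu F (fun ω => (D.s ω, (D.V ω, Z ω)))
    have c3 := CH_chain hp F D.nu (fun ω => (D.s ω, (D.V ω, Z ω)))
    have c4 := CH_swl hp F D.nu (fun ω => (D.s ω, (D.V ω, Z ω)))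
    have c5 : 0 ≤ CH D.p F (fun ω => (D.nu ω, (D.s ω, (D.V ω, Z ω)))) := CH_nonneg hp _ _
    have c6 : CH D.p F (fun ω => (D.s ω, (D.V ω, Z ω))) ≤
        CH D.p F (fun ω => (D.out M ω, Z ω)) :=
      CH_mono_cond hp fun ω ω' _ _ e => by
        simp only [Prod.mk.injEq] at e ⊢
        exact ⟨houtV M _ _ e.2.1 e.1, e.2.2⟩
    have c7 : CH D.p D.nu (fun ω => (F ω, (D.s ω, (D.V ω, Z ω)))) =
        CH D.p D.nu (fun ω => (D.s ω, (F ω, (D.V ω, Z ω)))) := by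
      refine CH_congr hp ?_ ?_ ?_ ?_ <;>
      · intro w w' _ _ e
        simp only [Prod.mk.injEq] at e ⊢
        tauto
    have c8 : CH D.p D.nu (fun ω => (F ω, (D.V ω, Z ω))) ≤ CH D.p D.nu (fun ω => (D.V ω, Z ω)) :=
      CH_mono_cond hp fun ω ω' _ _ e => (Prod.ext_iff.1 e).2
    have c9 : CH D.p D.nu (fun ω => (F ω, (D.V ω, Z ω))) ≤
        CH D.p D.nu (fun ω => (D.s ω, (F ω, (D.V ω, Z ω)))) + 2 * θ := by
      rw [← c7]
      have e1 : CH D.p D.nu (fun ω => (D.s ω, (D.V ω, Z ω))) ≤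
          CH D.p D.nu (fun ω => (F ω, (D.s ω, (D.V ω, Z ω)))) + θ := by linarith
      have e2 : CH D.p D.nu (fun ω => (D.V ω, Z ω)) ≤
          CH D.p D.nu (fun ω => (D.s ω, (D.V ω, Z ω))) + θ := c1
      linarith
    have hFhdet : Det D.p (fun ω => (D.nu ω, (F ω, (D.V ω, Z ω)))) Fh := by
      intro ω ω' _ _ e
      simp only [Prod.mk.injEq] at e
      change D.hF h' F ω = D.hF h' F ω'
      unfold Dat.hF Dat.nr Dat.v
      rw [e.1, e.2.1, e.2.2.1]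
    have c10 := CH_indR hp hFhdet c9
    -- (v)
    have d1 : CH D.p Fh (fun ω => (F ω, (D.out M' ω, Z ω))) ≤
        CH D.p Fh (fun ω => (F ω, (D.out M ω, Z ω))) :=
      CH_mono_cond hp fun ω ω' _ _ e => by
        simp only [Prod.mk.injEq] at e ⊢
        exact ⟨e.1, hout _ _ e.2.1, e.2.2⟩
    have d2 : CH D.p Fh (fun ω => (D.s ω, (F ω, (D.V ω, Z ω)))) ≤
        CH D.p Fh (fun ω => (D.on M' ω, (F ω, (D.out M' ω, Z ω)))) :=
      CH_mono_cond hp fun ω ω' _ _ e => by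
        simp only [Prod.mk.injEq] at e ⊢
        exact ⟨honV M' _ _ e.2.2.1, e.2.1, houtV M' _ _ e.2.2.1 e.1, e.2.2.2⟩
    have d3 := CH_symm hp (D.on M') Fh (fun ω => (F ω, (D.out M' ω, Z ω)))
    have d4 : CH D.p (D.on M') (fun ω => (F ω, (D.out M' ω, Z ω))) ≤
        CH D.p (D.on M') (fun ω => (Fh ω, (F ω, (D.out M' ω, Z ω)))) + 3 * θ := by linarith
    -- (vi)
    have d5 := CH_le_add hp (D.on M') F (fun ω => (D.out M' ω, Z ω))
    have d6 : CH D.p F (fun ω => (D.out M' ω, Z ω)) ≤ CH D.p F (fun ω => (D.out M ω, Z ω)) :=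
      CH_mono_cond hp fun ω ω' _ _ e => by
        simp only [Prod.mk.injEq] at e ⊢
        exact ⟨hout _ _ e.1, e.2⟩
    -- (vii)
    set Gh := D.hF h' G
    have hE : ∀ ω, |Gh ω - Fh ω| ≤ 1 := by
      intro ω
      refine dg_nearR ?_
      have e1 : (D.nr ω - eval (D.v ω) (G ω)) - (D.nr ω - eval (D.v ω) (F ω)) =
          -(eval (D.v ω) (G ω) - eval (D.v ω) (F ω)) := by ring
      rw [e1, abs_neg]
      have e2 := (hd ω).2.2.2
      have e3 : (2 : ℝ) ^ h' * ((2 : ℝ) ^ (C * (b + 1)) * ((2 : ℝ) ^ D.X)⁻¹) ≤ 1 := by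
        rw [← mul_assoc, ← div_eq_mul_inv, div_le_one (by positivity), ← Real.rpow_natCast,
          ← Real.rpow_natCast, ← Real.rpow_add (by norm_num)]
        exact Real.rpow_le_rpow_of_exponent_le (by norm_num) hhX
      exact (mul_le_mul_of_nonneg_left e2 (by positivity)).trans e3
    have f1 := CH_le_add hp (D.on M') (fun ω => Gh ω - Fh ω)
      (fun ω => (Fh ω, (F ω, (D.out M' ω, Z ω))))
    have f2 : CH D.p (D.on M') (fun ω => (Fh ω, (F ω, (D.out M' ω, Z ω)))) ≤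
        CH D.p (D.on M') (fun ω => ((Gh ω - Fh ω), (Fh ω, (F ω, (D.out M' ω, Z ω))))) +
          Real.log 3 := by
      have g1 := CH_symm hp (D.on M') (fun ω => Gh ω - Fh ω)
        (fun ω => (Fh ω, (F ω, (D.out M' ω, Z ω))))
      have g2 := CH_three hp h1 (fun ω => Gh ω - Fh ω)
        (fun ω => (Fh ω, (F ω, (D.out M' ω, Z ω)))) hE
      have g3 : 0 ≤ CH D.p (fun ω => Gh ω - Fh ω)
          (fun ω => (D.on M' ω, (Fh ω, (F ω, (D.out M' ω, Z ω))))) := CH_nonneg hp _ _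
      linarith
    have f3 : CH D.p (D.on M') (fun ω => ((Gh ω - Fh ω), (Fh ω, (F ω, (D.out M' ω, Z ω))))) ≤
        CH D.p (D.on M') (fun ω => (Gh ω, (G ω, (D.out M' ω, Z ω)))) :=
      CH_mono_cond hp fun ω ω' _ _ e => by
        simp only [Prod.mk.injEq] at e ⊢
        refine ⟨by linarith [e.1, e.2.1], D.rst_congr e.2.2.1 e.2.2.2.1, e.2.2.2⟩
    have hlog3 : Real.log 3 ≤ 2 := by
      have := Real.log_le_sub_one_of_pos (show (0 : ℝ) < 3 by norm_num)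
      linarith
    have hfin : 5 * θ + Real.log 3 ≤ C * (θ + b + 1) := by nlinarith
    linarith

/-- **Restriction.** -/
theorem restr : RestrStmt := by
  intro m K
  obtain ⟨K', C, hC, h⟩ := restr_sub m K
  exact ⟨K', C, hC, fun D M c h₁ h' b θ F _ hb hθ hh _ hhX hH hfull hcl =>
    h D M (M.erase c) h₁ h' b θ F (Finset.erase_subset _ _) hb hθ hh hhX hH hfull hcl⟩

end Pool.TIE
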