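import Pool.Agent.H88.TIE.Stm

/-!
# The position is determined by the sheets
-/

set_option autoImplicit false

namespace Pool.TIE

open Finset MvPolynomial
open Pool.Agent.H49.Ent Pool.Agent.H32.Dense Pool.STK Pool.BFL

lemma eval_congr_vars {m : ℕ} {x y : Fin m → ℝ} {P : Pl m} (h : ∀ i ∈ P.vars, x i = y i) :
    eval x P = eval y P := by
  refine MvPolynomial.hom_congr_vars ?_ ?_ rfl
  · ext; simp
  · intro i hi _
    simpa using h i hi

namespace Dat

variable {m : ℕ} (D : Dat m)

/-- The coordinate is an exact function of its sheet and the earlier coordinates. -/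
lemma V_of_ht (c : Fin m) (ω : D.Ω) :
    D.V ω c = D.ht c ω - ⌊-((2 : ℝ) ^ D.X * eval (D.v ω) (D.s ω c))⌋ := by
  unfold ht dg
  have h0 : ((2 : ℝ) ^ D.X) ≠ 0 := by positivity
  have e : (2 : ℝ) ^ D.X * (D.v ω c - eval (D.v ω) (D.s ω c)) =
      -((2 : ℝ) ^ D.X * eval (D.v ω) (D.s ω c)) + (D.V ω c : ℝ) := by
    unfold v
    field_simp
    ring
  rw [e, Int.floor_add_intCast]
  ring

lemma v_congr {ω ω' : D.Ω} {c : Fin m} (h : D.V ω c = D.V ω' c) : D.v ω c = D.v ω' c := by
  unfold v; rw [h]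

lemma V_det {ω ω' : D.Ω} (c : Fin m) (hh : D.ht c ω = D.ht c ω') (hs : D.s ω c = D.s ω' c)
    (hV : ∀ c' ∈ (D.s ω c).vars, D.V ω c' = D.V ω' c') : D.V ω c = D.V ω' c := by
  rw [D.V_of_ht c ω, D.V_of_ht c ω', hh, ← hs,
    eval_congr_vars (x := D.v ω) (y := D.v ω') fun i hi => D.v_congr (hV i hi)]

lemma out_some {M : Finset (Fin m)} {ω ω' : D.Ω} (h : D.out M ω = D.out M ω') {c : Fin m}
    (hc : c ∉ M) : D.ht c ω = D.ht c ω' ∧ D.s ω c = D.s ω' c := by
  have := congrFun h c
  unfold out at this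
  rw [if_neg hc, if_neg hc] at this
  have h2 := Option.some.inj this
  exact ⟨congrArg Prod.fst h2, congrArg Prod.snd h2⟩

lemma on_mem {M : Finset (Fin m)} {ω ω' : D.Ω} (h : D.on M ω = D.on M ω') {c : Fin m}
    (hc : c ∈ M) : D.V ω c = D.V ω' c := by
  have := congrFun h c
  unfold on at this
  rwa [if_pos hc, if_pos hc] at this

/-- The position is determined by the coordinates of `M` and the sheets outside. -/
lemma V_det_out (hs : ∀ ω c, ∀ c' ∈ (D.s ω c).vars, c' < c) {M : Finset (Fin m)} {ω ω' : D.Ω}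
    (ho : D.out M ω = D.out M ω') (hM : D.on M ω = D.on M ω') : D.V ω = D.V ω' := by
  have key : ∀ n : ℕ, ∀ c : Fin m, (c : ℕ) = n → D.V ω c = D.V ω' c := by
    intro n
    induction n using Nat.strong_induction_on with
    | _ n ih =>
      intro c hc
      by_cases hM' : c ∈ M
      · exact D.on_mem hM hM'
      · obtain ⟨h1, h2⟩ := D.out_some ho hM'
        refine D.V_det c h1 h2 fun c' hc' => ?_
        have := hs ω c c' hc'
        exact ih c' (by rw [← hc]; exact this) c' rfl
  exact funext fun c => key c c rfl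

end Dat

end Pool.TIE
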