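import Pool.Agent.H65.TIE.Vdet
import Pool.Agent.H50.LBL.Ml1

/-!
# Elimination of the coordinates outside a set
-/

set_option autoImplicit false

namespace Pool.TIE

open Finset MvPolynomial
open Pool.GLM (ml ml_eq ml_nn ml_C ml_add ml_sum ml_mul ml_mul_le)
open Pool.BFL (Pl)

variable {m : ℕ}

/-! ### The coefficient norm -/

lemma coeff_le_mlR (P : Pl m) (α : Fin m →₀ ℕ) : |coeff α P| ≤ ml P := by
  classical
  by_cases h : α ∈ P.support
  · exact Finset.single_le_sum (f := fun β => |coeff β P|) (fun _ _ => abs_nonneg _) h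
  · rw [MvPolynomial.notMem_support_iff.1 h, abs_zero]
    exact ml_nn P

lemma card_supp {P : Pl m} {K : ℕ} (hP : P.totalDegree ≤ K) : P.support.card ≤ (K + 1) ^ m := by
  classical
  have h : ∀ α ∈ P.support, ∀ i, α i < K + 1 := fun α hα i => by
    have h1 := le_totalDegree hα
    rw [Finsupp.sum_fintype _ _ (fun _ => rfl)] at h1
    have h2 : α i ≤ ∑ j, α j := Finset.single_le_sum (fun _ _ => Nat.zero_le _) (Finset.mem_univ i)
    omega
  have hc := Finset.card_le_card_of_injOn (s := P.support)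
    (t := Fintype.piFinset fun _ : Fin m => Finset.range (K + 1)) (fun α => fun i => α i)
    (fun α hα => by
      simp only [Finset.coe_sort_coe, Finset.mem_coe, Fintype.mem_piFinset, Finset.mem_range]
      exact h α hα)
    (fun α _ β _ e => Finsupp.ext fun i => congrFun e i)
  simpa [Fintype.card_piFinset] using hc

lemma ml_le_of_cb {P : Pl m} {K : ℕ} {r : ℝ} (hP : P.totalDegree ≤ K) (hr : 0 ≤ r)
    (h : ∀ α, |coeff α P| ≤ r) : ml P ≤ ((K : ℝ) + 1) ^ m * r := by
  unfold Pool.GLM.ml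
  refine (Finset.sum_le_card_nsmul _ _ r fun α _ => h α).trans ?_
  rw [nsmul_eq_mul]
  refine mul_le_mul_of_nonneg_right ?_ hr
  exact_mod_cast card_supp hP

lemma ml_pow (P : Pl m) (k : ℕ) : ml (P ^ k) ≤ ml P ^ k := by
  induction k with
  | zero =>
    rw [pow_zero, pow_zero]
    have : (1 : Pl m) = C 1 := by simp
    rw [this, ml_C, abs_one]
  | succ k ih =>
    rw [pow_succ, pow_succ]
    exact ml_mul_le ih le_rfl

lemma ml_prod_pow {ι : Type*} (s : Finset ι) (f : ι → Pl m) (e : ι → ℕ) {A : ℝ} (hA : 1 ≤ A)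
    (h : ∀ i, ml (f i) ≤ A) : ml (∏ i ∈ s, f i ^ e i) ≤ A ^ (∑ i ∈ s, e i) := by
  classical
  induction s using Finset.induction_on with
  | empty =>
    rw [Finset.prod_empty, Finset.sum_empty, pow_zero]
    have : (1 : Pl m) = C 1 := by simp
    rw [this, ml_C, abs_one]
  | insert a s ha ih =>
    rw [Finset.prod_insert ha, Finset.sum_insert ha, pow_add]
    refine ml_mul_le ((ml_pow _ _).trans (pow_le_pow_left₀ (ml_nn _) (h a) _)) ih

lemma bind_eq (f : Fin m → Pl m) (P : Pl m) :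
    bind₁ f P = ∑ α ∈ P.support, C (coeff α P) * ∏ i, f i ^ α i := by
  have := MvPolynomial.eval₂_eq' (C : ℝ →+* Pl m) f P
  rw [← this]
  rfl

lemma sum_le_deg {P : Pl m} {K : ℕ} (hP : P.totalDegree ≤ K) {α : Fin m →₀ ℕ}
    (hα : α ∈ P.support) : ∑ i, α i ≤ K := by
  have h1 := le_totalDegree hα
  rw [Finsupp.sum_fintype _ _ (fun _ => rfl)] at h1
  omega

lemma ml_bind {f : Fin m → Pl m} {P : Pl m} {K : ℕ} {A : ℝ} (hA : 1 ≤ A)
    (h : ∀ i, ml (f i) ≤ A) (hP : P.totalDegree ≤ K) : ml (bind₁ f P) ≤ ml P * A ^ K := by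
  rw [bind_eq]
  refine (ml_sum _ _).trans ?_
  have e : ml P * A ^ K = ∑ α ∈ P.support, |coeff α P| * A ^ K := by
    unfold Pool.GLM.ml
    rw [Finset.sum_mul]
  rw [e]
  refine Finset.sum_le_sum fun α hα => ?_
  refine ml_mul_le (by rw [ml_C]) ((ml_prod_pow _ _ _ hA h).trans ?_)
  exact pow_le_pow_right₀ hA (sum_le_deg hP hα)

lemma deg_bind {f : Fin m → Pl m} {P : Pl m} {K d : ℕ}
    (h : ∀ i, (f i).totalDegree ≤ d) (hP : P.totalDegree ≤ K) :
    (bind₁ f P).totalDegree ≤ K * d := by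
  rw [bind_eq]
  refine (totalDegree_finsetSum _ _).trans (Finset.sup_le fun α hα => ?_)
  refine (totalDegree_mul _ _).trans ?_
  rw [totalDegree_C, zero_add]
  refine (totalDegree_finsetProd _ _).trans ?_
  refine (Finset.sum_le_sum (g := fun i => α i * d) fun i _ =>
    (totalDegree_pow _ _).trans (Nat.mul_le_mul_left _ (h i))).trans ?_
  rw [← Finset.sum_mul]
  exact Nat.mul_le_mul_right _ (sum_le_deg hP hα)

lemma eval_bind (x : Fin m → ℝ) (f : Fin m → Pl m) (P : Pl m) :
    eval x (bind₁ f P) = eval (fun i => eval x (f i)) P := by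
  rw [bind_eq, map_sum, MvPolynomial.eval_eq']
  refine Finset.sum_congr rfl fun α _ => ?_
  simp [map_prod]

/-! ### Lipschitz bounds on a box -/

lemma prod_le2 {R : ℝ} {u : Fin m → ℝ} (hu : ∀ i, |u i| ≤ R)
    (k : Fin m → ℕ) (s : Finset (Fin m)) : |∏ i ∈ s, u i ^ k i| ≤ R ^ (∑ i ∈ s, k i) := by
  rw [Finset.abs_prod, ← Finset.prod_pow_eq_pow_sum]
  refine Finset.prod_le_prod (fun i _ => abs_nonneg _) fun i _ => ?_
  rw [abs_pow]
  exact pow_le_pow_left₀ (abs_nonneg _) (hu i) _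

lemma pow_lip2 {R δ : ℝ} (hR : 1 ≤ R) {x y : ℝ} (hx : |x| ≤ R) (hy : |y| ≤ R)
    (h : |x - y| ≤ δ) (k : ℕ) : |x ^ k - y ^ k| ≤ k * R ^ k * δ := by
  have hR0 : (0 : ℝ) ≤ R := by linarith
  have hδ : 0 ≤ δ := (abs_nonneg _).trans h
  induction k with
  | zero => simp
  | succ k ih =>
    have e : x ^ (k + 1) - y ^ (k + 1) = x ^ k * (x - y) + (x ^ k - y ^ k) * y := by ring
    rw [e]
    refine (abs_add_le _ _).trans ?_
    rw [abs_mul, abs_mul, abs_pow]
    have h1 : |x| ^ k * |x - y| ≤ R ^ k * δ :=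
      mul_le_mul (pow_le_pow_left₀ (abs_nonneg _) hx k) h (abs_nonneg _) (by positivity)
    have h2 : |x ^ k - y ^ k| * |y| ≤ (k * R ^ k * δ) * R :=
      mul_le_mul ih hy (abs_nonneg _) (by positivity)
    have h3 : R ^ k * δ ≤ R ^ (k + 1) * δ :=
      mul_le_mul_of_nonneg_right (pow_le_pow_right₀ hR (Nat.le_succ k)) hδ
    have h4 : (k * R ^ k * δ) * R = k * R ^ (k + 1) * δ := by ring
    push_cast
    linarith

lemma prod_lip2 {R δ : ℝ} (hR : 1 ≤ R) {u v : Fin m → ℝ} (hu : ∀ i, |u i| ≤ R)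
    (hv : ∀ i, |v i| ≤ R) (hδ : 0 ≤ δ) (h : ∀ i, |u i - v i| ≤ δ) (k : Fin m → ℕ)
    (s : Finset (Fin m)) : |∏ i ∈ s, u i ^ k i - ∏ i ∈ s, v i ^ k i| ≤
      (∑ i ∈ s, k i : ℕ) * R ^ (∑ i ∈ s, k i) * δ := by
  classical
  have hR0 : (0 : ℝ) ≤ R := by linarith
  induction s using Finset.induction_on with
  | empty => simp
  | insert a s ha ih =>
    rw [Finset.prod_insert ha, Finset.prod_insert ha, Finset.sum_insert ha]
    have e : u a ^ k a * ∏ i ∈ s, u i ^ k i - v a ^ k a * ∏ i ∈ s, v i ^ k i =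
        (u a ^ k a - v a ^ k a) * ∏ i ∈ s, u i ^ k i +
          v a ^ k a * (∏ i ∈ s, u i ^ k i - ∏ i ∈ s, v i ^ k i) := by ring
    rw [e]
    refine (abs_add_le _ _).trans ?_
    rw [abs_mul, abs_mul, abs_pow]
    have h1 : |u a ^ k a - v a ^ k a| * |∏ i ∈ s, u i ^ k i| ≤
        (k a * R ^ k a * δ) * R ^ (∑ i ∈ s, k i) :=
      mul_le_mul (pow_lip2 hR (hu a) (hv a) (h a) _) (prod_le2 hu k s) (abs_nonneg _)
        (by positivity)
    have h2 : |v a| ^ k a * |∏ i ∈ s, u i ^ k i - ∏ i ∈ s, v i ^ k i| ≤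
        R ^ k a * ((∑ i ∈ s, k i : ℕ) * R ^ (∑ i ∈ s, k i) * δ) :=
      mul_le_mul (pow_le_pow_left₀ (abs_nonneg _) (hv a) _) ih (abs_nonneg _) (by positivity)
    refine (add_le_add h1 h2).trans (le_of_eq ?_)
    rw [pow_add]
    push_cast
    ring

lemma lip2 {P : Pl m} {K : ℕ} {R δ : ℝ} (hR : 1 ≤ R) (hP : P.totalDegree ≤ K)
    {u v : Fin m → ℝ} (hu : ∀ i, |u i| ≤ R) (hv : ∀ i, |v i| ≤ R) (hδ : 0 ≤ δ)
    (h : ∀ i, |u i - v i| ≤ δ) : |eval u P - eval v P| ≤ ml P * (K * R ^ K * δ) := by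
  have hR0 : (0 : ℝ) ≤ R := by linarith
  rw [MvPolynomial.eval_eq', MvPolynomial.eval_eq', ← Finset.sum_sub_distrib]
  refine (Finset.abs_sum_le_sum_abs _ _).trans ?_
  unfold Pool.GLM.ml
  rw [Finset.sum_mul]
  refine Finset.sum_le_sum fun α hα => ?_
  rw [← mul_sub, abs_mul]
  refine mul_le_mul_of_nonneg_left ((prod_lip2 hR hu hv hδ h _ univ).trans ?_) (abs_nonneg _)
  have h2 := sum_le_deg hP hα
  refine mul_le_mul_of_nonneg_right ?_ hδ
  refine mul_le_mul ?_ (pow_le_pow_right₀ hR h2) (by positivity) (by positivity)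
  exact_mod_cast h2

lemma eval_ml2 {P : Pl m} {u : Fin m → ℝ} (hu : ∀ i, |u i| ≤ 1) : |eval u P| ≤ ml P :=
  Pool.GLM.eval_ml P hu

/-! ### Elimination -/

/-- The coordinates as polynomials in the coordinates of `M'`: outside `M'` the coordinate `c` is
`n c + s c`. The number `k` is the depth of the recursion. -/
noncomputable def elim (M' : Finset (Fin m)) (n : Fin m → ℝ) (s : Fin m → Pl m) :
    ℕ → Fin m → Pl m
  | 0, _ => 0
  | k + 1, c => if c ∈ M' then X c else C (n c) + bind₁ (elim M' n s k) (s c)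

variable {M' : Finset (Fin m)} {n : Fin m → ℝ} {s : Fin m → Pl m}

lemma elim_congr {n' : Fin m → ℝ} {s' : Fin m → Pl m} (hn : ∀ c, c ∉ M' → n c = n' c)
    (hs : ∀ c, c ∉ M' → s c = s' c) (k : ℕ) : elim M' n s k = elim M' n' s' k := by
  induction k with
  | zero => rfl
  | succ k ih =>
    funext c
    unfold elim
    by_cases hc : c ∈ M'
    · rw [if_pos hc, if_pos hc]
    · rw [if_neg hc, if_neg hc, hn c hc, hs c hc, ih]

lemma vars_bind_sub {f : Fin m → Pl m} {P : Pl m} (h : ∀ i, (f i).vars ⊆ M') :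
    (bind₁ f P).vars ⊆ M' := by
  classical
  refine (vars_bind₁ f P).trans ?_
  exact Finset.biUnion_subset.2 fun i _ => h i

lemma elim_vars (k : ℕ) (c : Fin m) : (elim M' n s k c).vars ⊆ M' := by
  classical
  induction k generalizing c with
  | zero => unfold elim; simp
  | succ k ih =>
    unfold elim
    by_cases hc : c ∈ M'
    · rw [if_pos hc, vars_X]
      exact Finset.singleton_subset_iff.2 hc
    · rw [if_neg hc]
      refine (vars_add_subset _ _).trans (Finset.union_subset ?_ (vars_bind_sub ih))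
      rw [vars_C]
      exact Finset.empty_subset _

lemma elim_deg {K : ℕ} (hs : ∀ c, (s c).totalDegree ≤ K) (k : ℕ) (c : Fin m) :
    (elim M' n s k c).totalDegree ≤ (K + 1) ^ k := by
  induction k generalizing c with
  | zero => unfold elim; simp
  | succ k ih =>
    unfold elim
    by_cases hc : c ∈ M'
    · rw [if_pos hc]
      exact (totalDegree_X _).le.trans (Nat.one_le_pow _ _ (Nat.succ_pos _))
    · rw [if_neg hc]
      refine (totalDegree_add _ _).trans (max_le ?_ ?_)
      · rw [totalDegree_C]; exact Nat.zero_le _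
      · refine (deg_bind ih (hs c)).trans ?_
        rw [pow_succ, mul_comm]
        exact Nat.mul_le_mul_left _ (Nat.le_succ K)

/-- The exponents of the coefficient bound. -/
def ce (K : ℕ) : ℕ → ℕ
  | 0 => 0
  | k + 1 => 1 + K * ce K k

lemma elim_ml {K : ℕ} {S T : ℝ} (hs : ∀ c, (s c).totalDegree ≤ K) (hS : 1 ≤ S)
    (hm : ∀ c, ml (s c) ≤ S) (hn : ∀ c, c ∉ M' → |n c| ≤ 2 + S) (hT : 4 * S ≤ T) (k : ℕ)
    (c : Fin m) : ml (elim M' n s k c) ≤ T ^ ce K k := by
  have hT1 : 1 ≤ T := by linarith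
  induction k generalizing c with
  | zero =>
    unfold elim ce
    rw [Pool.GLM.ml_zero]; positivity
  | succ k ih =>
    unfold elim ce
    have hA : 1 ≤ T ^ ce K k := one_le_pow₀ hT1
    by_cases hc : c ∈ M'
    · rw [if_pos hc]
      have : (X c : Pl m) = monomial (Finsupp.single c 1) 1 := rfl
      rw [this, Pool.GLM.ml_monomial, abs_one]
      exact one_le_pow₀ hT1
    · rw [if_neg hc]
      refine (ml_add _ _).trans ?_
      rw [ml_C, pow_add, pow_one, mul_comm K, pow_mul]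
      have h1 := ml_bind hA ih (hs c)
      have hAK : 1 ≤ (T ^ ce K k) ^ K := one_le_pow₀ hA
      have h2 := hn c hc
      have h3 : ml (s c) * (T ^ ce K k) ^ K ≤ S * (T ^ ce K k) ^ K :=
        mul_le_mul_of_nonneg_right (hm c) (by positivity)
      have h4 : 4 * S * (T ^ ce K k) ^ K ≤ T * (T ^ ce K k) ^ K :=
        mul_le_mul_of_nonneg_right hT (by positivity)
      have h5 : 3 * S * 1 ≤ 3 * S * (T ^ ce K k) ^ K :=
        mul_le_mul_of_nonneg_left hAK (by positivity)
      linarith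

lemma elim_val {K : ℕ} {S T D₀ : ℝ} {v : Fin m → ℝ} (hs : ∀ c, (s c).totalDegree ≤ K)
    (hS : 1 ≤ S) (hm : ∀ c, ml (s c) ≤ S) (hv : ∀ i, |v i| ≤ 1)
    (hvars : ∀ c, ∀ c' ∈ (s c).vars, c' < c) (hD₀ : 0 ≤ D₀)
    (hn : ∀ c, c ∉ M' → |v c - eval v (s c) - n c| ≤ D₀)
    (hT : (1 + K * 2 ^ K) * S ≤ T) (k : ℕ) (hk : ∀ j < k, D₀ * T ^ j ≤ 1) (c : Fin m)
    (hc : (c : ℕ) < k) : |eval v (elim M' n s k c) - v c| ≤ D₀ * T ^ k := by
  have hT1 : 1 ≤ T := by
    have h0 : (0 : ℝ) ≤ K * 2 ^ K := by positivity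
    nlinarith
  induction k generalizing c with
  | zero => exact absurd hc (Nat.not_lt_zero _)
  | succ k ih =>
    unfold elim
    by_cases hM : c ∈ M'
    · rw [if_pos hM, eval_X, sub_self, abs_zero]
      positivity
    · rw [if_neg hM, map_add, eval_C, eval_bind]
      have hD1 : D₀ * T ^ k ≤ 1 := hk k (Nat.lt_succ_self k)
      have hD2 : 0 ≤ D₀ * T ^ k := by positivity
      have ih' := ih fun j hj => hk j (hj.trans (Nat.lt_succ_self k))
      -- replace the junk outside
      let w : Fin m → ℝ := fun i => if i < c then eval v (elim M' n s k i) else v i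
      have hw : ∀ i, |w i - v i| ≤ D₀ * T ^ k := by
        intro i
        by_cases hi : i < c
        · simp only [w, if_pos hi]
          refine ih' i ?_
          have : (i : ℕ) < (c : ℕ) := hi
          omega
        · simp only [w, if_neg hi, sub_self, abs_zero]
          exact hD2
      have hw2 : ∀ i, |w i| ≤ 2 := fun i => by
        have h1 := hw i
        have h2 := hv i
        have h3 : w i = (w i - v i) + v i := by ring
        rw [h3]
        exact (abs_add_le _ _).trans (by linarith)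
      have e1 : eval (fun i => eval v (elim M' n s k i)) (s c) = eval w (s c) :=
        eval_congr_vars fun i hi => by
          simp only [w, if_pos (hvars c i hi)]
      rw [e1]
      have h1 := lip2 (R := 2) (by norm_num) (hs c) hw2 (fun i => (hv i).trans (by norm_num))
        hD2 hw
      have h2 := hn c hM
      have h3 : |n c + eval w (s c) - v c| ≤ |eval w (s c) - eval v (s c)| +
          |v c - eval v (s c) - n c| := by
        have : n c + eval w (s c) - v c = (eval w (s c) - eval v (s c)) -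
            (v c - eval v (s c) - n c) := by ring
        rw [this]
        exact abs_sub _ _
      refine h3.trans ((add_le_add (h1.trans (mul_le_mul_of_nonneg_right (hm c) ?_)) h2).trans ?_)
      · positivity
      · have h4 : D₀ * (1 + K * 2 ^ K) * S * T ^ k ≤ D₀ * T ^ (k + 1) := by
          rw [pow_succ]
          have := mul_le_mul_of_nonneg_left hT hD2
          nlinarith
        have h5 : D₀ ≤ D₀ * S * T ^ k := by
          have a1 : 1 ≤ T ^ k := one_le_pow₀ hT1
          have a2 : 1 ≤ S * T ^ k := by nlinarith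
          nlinarith
        nlinarith

end Pool.TIE
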