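import Pool.Agent.H65.TIE.Nr

/-!
# The core: the position is full given the total shape and the height over it
-/

set_option autoImplicit false

namespace Pool.TIE

open Finset Real
open Pool.Agent.H49.Ent Pool.Agent.H32.Dense Pool.STK Pool.BFL Pool.MIC Pool.LBL Pool.GLM
open Pool.M5 Pool.SLO

namespace Cd

variable {k : ℕ} {D : Cd k} {K k₀ c₂ s c₃ x : ℕ} {δ θ d : ℝ} {q : Om D K → ℝ}

/-! ### Functions of the references, of the line, of the time -/

lemma ref_th {u u' : Om D K} (h : D.ref K u = D.ref K u') (j : Fin (K + 1)) :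
    D.th (u.1 j) = D.th (u'.1 j) := th_of_nt (congrArg Prod.fst (congrFun h j))

lemma ref_FR {u u' : Om D K} (h : D.ref K u = D.ref K u') (j : Fin (K + 1)) :
    D.F (u.1 j) = D.F (u'.1 j) := congrArg Prod.snd (congrFun h j)

lemma phi_congr {u u' : Om D K} (h : D.ref K u = D.ref K u') : D.phi K u = D.phi K u' := by
  funext i
  unfold phi
  have h1 : (fun j => D.th (u.1 j)) = fun j => D.th (u'.1 j) := funext fun j => ref_th h j
  have h2 : (fun j => MvPolynomial.coeff (Finsupp.equivFunOnFinite.symm (i : Fin k → ℕ))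
      (D.F (u.1 j))) = fun j => MvPolynomial.coeff
        (Finsupp.equivFunOnFinite.symm (i : Fin k → ℕ)) (D.F (u'.1 j)) :=
    funext fun j => by rw [ref_FR h j]
  rw [h1, h2]

lemma psi_congr {u u' : Om D K} (h : D.ref K u = D.ref K u') (hW : D.W u.2 = D.W u'.2) :
    D.psi K u = D.psi K u' := by
  unfold psi
  rw [phi_congr h, w_of_W hW]

lemma dif_congr (hD : D.Ok K) {u u' : Om D K} (h0 : 0 < D.p u.2) (h0' : 0 < D.p u'.2)
    (hr : D.ref K u = D.ref K u') (hL : D.L0 u.2 = D.L0 u'.2) :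
    D.dif K c₂ u = D.dif K c₂ u' := by
  have hW : D.W u.2 = D.W u'.2 := (Prod.ext_iff.1 hL).1
  unfold dif
  rw [Pt_of hD h0 h0' hL, psi_congr hr hW]

lemma rcp_congr {u u' : Om D K} (h : rk s (D.kap K c₂ u) = rk s (D.kap K c₂ u')) :
    D.rcp K c₂ s u = D.rcp K c₂ s u' := by
  unfold rcp
  rw [h]

lemma The_congr (hD : D.Ok K) {u u' : Om D K} (h0 : 0 < D.p u.2) (h0' : 0 < D.p u'.2)
    (hg : D.gm u.2 = D.gm u'.2) : D.The K u = D.The K u' := by
  simp only [gm, Prod.mk.injEq] at hg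
  obtain ⟨e1, e2, e3⟩ := hg
  unfold The
  rw [hD.S_det u.2 u'.2 h0 h0' (Prod.ext e2 e3), e1]

lemma Ft_congr (hD : D.Ok K) {u u' : Om D K} (h0 : 0 < D.p u.2) (h0' : 0 < D.p u'.2)
    (hk : rk s (D.kap K c₂ u) = rk s (D.kap K c₂ u')) (hr : D.ref K u = D.ref K u')
    (hg : D.gm u.2 = D.gm u'.2) : D.Ft K c₂ s u = D.Ft K c₂ s u' := by
  unfold Ft
  rw [The_congr hD h0 h0' hg, phi_congr hr, rcp_congr hk]

end Cd

open Cd in
/-- **The position is full given the total shape and the height over it.** -/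
theorem f2_thm : F2Stmt := by
  intro k K
  refine ⟨2 * (4 * (2 * K + 2) + 2) + 3, by
    have : (0 : ℝ) ≤ K := Nat.cast_nonneg _
    linarith, ?_⟩
  intro D q θ d δ k₀ c₂ s c₃ x hD hF hA hθ _ hrk hxh hs hδ hc hrX hd hl hm
  have hq := hF.law
  have hp := hq.nonneg
  obtain ⟨ref, href⟩ : ∃ r : Om D K → (Fin (K + 1) → ℤ × Pl k), r = D.ref K := ⟨_, rfl⟩
  obtain ⟨kp, hkp⟩ : ∃ r : Om D K → ((Fin 1 →₀ ℕ) → ℤ), r = fun u => rk s (D.kap K c₂ u) :=
    ⟨_, rfl⟩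
  obtain ⟨n3, hn3⟩ : ∃ r : Om D K → ℤ, r = D.n3 K c₂ s c₃ x := ⟨_, rfl⟩
  have hxx : ∀ u : Om D K, D.n3 K c₂ s c₃ x u =
      dg x ((D.nu u.2 - MvPolynomial.eval (D.zz u.2) (D.Ft K c₂ s u)) / 2 ^ c₃) := fun _ => rfl
  have hC0 : (0 : ℝ) ≤ 2 * (K : ℝ) + 2 := by positivity
  -- the height is near a function of the line
  have g1 : CH q n3 (fun u => (D.Lm u.2, ref u)) ≤ 4 * (2 * K + 2) + 2 := by
    rw [hn3]
    refine CH_nearL hq (fun u => (D.nu u.2 - MvPolynomial.eval (D.zz u.2) (D.Ft K c₂ s u)) /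
      2 ^ c₃) (D.f1 K c₂ c₃) _ ?_ hC0 x fun u hu => near1 hD (hA u hu) hxh hs hrX (hl u hu)
    intro u u' hu hu' e
    simp only [href, Prod.mk.injEq] at e
    obtain ⟨e1, e2⟩ := e
    have e3 : D.L0 u.2 = D.L0 u'.2 := (Prod.ext_iff.1 e1).2
    have e4 : D.n1 u.2 = D.n1 u'.2 := (Prod.ext_iff.1 e1).1
    unfold Cd.f1
    rw [e4, dif_congr hD (hF.supp u hu).1 (hF.supp u' hu').1 e2 e3]
  -- the height is near a function of the time
  have g2 : CH q n3 (fun u => (kp u, (D.n2 u.2, (D.Tm u.2, (ref u, D.gm u.2))))) ≤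
      4 * (2 * K + 2) + 2 := by
    rw [hn3]
    refine CH_nearL hq (fun u => (D.nu u.2 - MvPolynomial.eval (D.zz u.2) (D.Ft K c₂ s u)) /
      2 ^ c₃) (D.f2 K c₂ s c₃) _ ?_ hC0 x fun u hu => near2 hD (hA u hu) hxh hδ hrX (hl u hu)
    intro u u' hu hu' e
    simp only [hkp, Tm, Prod.mk.injEq] at e
    obtain ⟨e1, e2, ⟨e3, e4⟩, _⟩ := e
    unfold Cd.f2
    rw [e2, e4, rcp_congr e1, th_of_nt e3]
  -- the first part
  have a1 : CH q (fun u => D.lo u.2) (fun u => (D.Lm u.2, ref u)) ≤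
      CH q (fun u => D.lo u.2) (fun u => (n3 u, (D.Lm u.2, ref u))) +
        (4 * (2 * K + 2) + 2) := by
    have := CH_few hp (fun u => D.lo u.2) n3 (fun u => (D.Lm u.2, ref u))
    linarith
  have a2 : CH q (fun u => D.lo u.2) (fun u => (n3 u, (D.Lm u.2, ref u))) ≤
      CH q (fun u => D.lo u.2) (fun u => (n3 u, (kp u, (ref u, D.gm u.2)))) := by
    refine CH_mono_cond hp fun u u' hu hu' e => ?_
    simp only [Prod.mk.injEq] at e ⊢
    obtain ⟨e1, e2, e3⟩ := e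
    have e4 : D.L0 u.2 = D.L0 u'.2 := (Prod.ext_iff.1 e2).2
    refine ⟨e1, ?_, e3, gm_L u.2 u'.2 (hF.supp u hu).1 (hF.supp u' hu').1 e2⟩
    rw [hkp]
    simp only
    unfold Cd.kap
    rw [href] at e3
    rw [dif_congr hD (hF.supp u hu).1 (hF.supp u' hu').1 e3 e4]
  -- the second part
  have b1 : CH q (fun u => D.W u.2) (fun u => (n3 u, (kp u, (D.n2 u.2, (D.Tm u.2,
      (ref u, D.gm u.2)))))) ≤ CH q (fun u => D.W u.2) (fun u => (D.lo u.2,
        (n3 u, (kp u, (ref u, D.gm u.2))))) := by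
    refine CH_mono_cond hp fun u u' hu hu' e => ?_
    simp only [Tm, Prod.mk.injEq] at e ⊢
    obtain ⟨e1, e2, e3, ⟨e4, e5⟩, e6, e7⟩ := e
    exact ⟨lo_of_nt e4, e1, e2, e6, e7⟩
  have b2 := CH_few hp (fun u => D.W u.2) n3 (fun u => (kp u, (D.n2 u.2, (D.Tm u.2,
      (ref u, D.gm u.2)))))
  have b3 := CH_few hp (fun u => D.W u.2) kp (fun u => (D.n2 u.2, (D.Tm u.2,
      (ref u, D.gm u.2))))
  have b4 : CH q kp (fun u => (D.n2 u.2, (D.Tm u.2, (ref u, D.gm u.2)))) ≤ θ := by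
    have h1 : CH q kp (fun u => (D.n2 u.2, (D.Tm u.2, (ref u, D.gm u.2)))) ≤
        CH q kp (fun u => (ref u, D.gm u.2)) :=
      CH_mono_cond hp fun u u' hu hu' e => by
        simp only [Prod.mk.injEq] at e ⊢
        exact e.2.2
    rw [hkp, href] at h1 ⊢
    exact h1.trans hrk
  -- together
  have c1 := CH_chain hp (fun u => D.W u.2) (fun u => D.lo u.2)
    (fun u => (n3 u, (kp u, (ref u, D.gm u.2))))
  have c2 : CH q (fun u => (D.W u.2, D.lo u.2)) (fun u => (n3 u, (kp u, (ref u, D.gm u.2)))) ≤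
      CH q (fun u => (D.t u.2, D.W u.2)) (fun u => (n3 u, (kp u, (ref u, D.gm u.2)))) := by
    refine CH_mono_left hp fun u u' hu hu' e => ?_
    simp only [gm, Prod.mk.injEq] at e ⊢
    obtain ⟨⟨e1, e2⟩, e3, e4, e5, e6, e7, e8⟩ := e
    exact ⟨e2, lo_of_nt (nt_of hD (hF.supp u hu).1 (hF.supp u' hu').1 e1 e2 e7 e8)⟩
  have c3 : CH q (fun u => (D.t u.2, D.W u.2)) (fun u => (n3 u, (kp u, (ref u, D.gm u.2)))) ≤
      CH q (fun u => (D.t u.2, D.W u.2))
        (fun u => (D.n3 K c₂ s c₃ x u, (D.Ft K c₂ s u, D.Z u.2))) := by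
    refine CH_mono_cond hp fun u u' hu hu' e => ?_
    simp only [Prod.mk.injEq, hn3, hkp, href] at e ⊢
    obtain ⟨e1, e2, e3, e4⟩ := e
    refine ⟨e1, Ft_congr hD (hF.supp u hu).1 (hF.supp u' hu').1 e2 e3 e4, ?_⟩
    simp only [gm, Prod.mk.injEq] at e4
    exact e4.2.2
  have f3 := hF.f3
  have f4 := hF.f4
  rw [← href] at f3 f4
  rw [castM hD] at f4
  have hlog : Real.log 2 ≤ 1 := by linarith [Real.log_two_lt_d9]
  have hlog0 : 0 ≤ Real.log 2 := Real.log_nonneg (by norm_num)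
  have hr : (D.r : ℝ) * Real.log 2 ≤ D.r := by
    have : (0 : ℝ) ≤ D.r := Nat.cast_nonneg _
    nlinarith
  have hB : 0 ≤ ((D.B : ℝ) + 1) * Real.log 2 := by positivity
  have hK : (0 : ℝ) ≤ K := Nat.cast_nonneg _
  have hprod : 0 ≤ (2 * (4 * (2 * (K : ℝ) + 2) + 2)) * θ := by positivity
  nlinarith

end Pool.TIE
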