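import Pool.Agent.H65.TIE.F2

/-!
# The core: the second application of W0
-/

set_option autoImplicit false

namespace Pool.TIE

open Finset Real
open Pool.Agent.H49.Ent Pool.Agent.H32.Dense Pool.STK Pool.BFL Pool.MIC Pool.LBL Pool.GLM
open Pool.M5 Pool.SLO

namespace Cd

variable {k : ℕ} {D : Cd k} {K k₀ c₂ s c₃ x : ℕ} {δ θ d : ℝ} {q : Om D K → ℝ}

/-! ### The total shape -/

lemma Mon_zero (k : ℕ) : Mon k 0 = ∅ := by
  unfold Mon
  rw [Finset.filter_eq_empty_iff]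
  intro al _ h
  omega

lemma The_degR (hD : D.Ok K) (u : Om D K) : (D.The K u).totalDegree ≤ K + 1 := by
  unfold The
  have h1 : (MvPolynomial.X 0 - MvPolynomial.rename Fin.succ (D.S u.2) +
      MvPolynomial.C (2 ^ D.B) : Pl (k + 1)).totalDegree ≤ K + 1 := by
    refine (MvPolynomial.totalDegree_add _ _).trans (max_le ?_ ?_)
    · refine (MvPolynomial.totalDegree_sub _ _).trans (max_le ?_ ?_)
      · exact (MvPolynomial.totalDegree_X _).le.trans (by omega)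
      · exact (MvPolynomial.totalDegree_rename_le _ _).trans ((hD.S_deg u.2).trans (by omega))
    · rw [MvPolynomial.totalDegree_C]
      omega
  refine (MvPolynomial.totalDegree_sub _ _).trans (max_le ?_ ?_)
  · refine (MvPolynomial.totalDegree_mul _ _).trans ?_
    rw [MvPolynomial.totalDegree_C, zero_add]
    exact h1
  · rw [MvPolynomial.totalDegree_C]
    omega

lemma Ft_degR (hD : D.Ok K) {u : Om D K} (hA : D.Apx K k₀ δ u) :
    (D.Ft K c₂ s u).totalDegree ≤ K * (K + 1) + K := by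
  unfold Ft
  refine (MvPolynomial.totalDegree_add _ _).trans (max_le ?_ ?_)
  · refine (MvPolynomial.totalDegree_finsetSum _ _).trans (Finset.sup_le fun i _ => ?_)
    refine (MvPolynomial.totalDegree_mul _ _).trans (add_le_add ?_ ?_)
    · exact deg_aeval _ (The_degR hD u) _ (phi_degR hA i)
    · refine (MvPolynomial.totalDegree_rename_le _ _).trans ?_
      refine (MvPolynomial.totalDegree_monomial_le _ _).trans ?_
      have h1 := i.2
      unfold Mon at h1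
      rw [Finset.mem_filter] at h1
      rw [Finsupp.sum_fintype _ _ fun _ => rfl]
      exact h1.2.2
  · exact (deg_aeval _ (The_degR hD u) _ (rcp_degR u)).trans (by omega)

lemma zz_mem (hD : D.Ok K) (ω : D.Ω) (i : Fin (k + 1)) : 0 ≤ D.zz ω i ∧ D.zz ω i < 1 := by
  unfold zz
  refine Fin.cases ?_ (fun j => ?_) i
  · rw [Fin.cons_zero]; exact ta_mem hD ω
  · rw [Fin.cons_succ]; exact w_mem hD ω j

/-- The vector `(t, W)`. -/
def tW (D : Cd k) (ω : D.Ω) : Fin (k + 1) → ℤ := Fin.cons (D.t ω) (D.W ω)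

lemma tW_lt (hD : D.Ok K) (ω : D.Ω) (i : Fin (k + 1)) : 0 ≤ D.tW ω i ∧ D.tW ω i < 2 ^ D.X := by
  unfold tW
  refine Fin.cases ?_ (fun j => ?_) i
  · rw [Fin.cons_zero]; exact hD.t_lt ω
  · rw [Fin.cons_succ]; exact hD.W_lt ω j

lemma Yz_eq (x : ℕ) (ω : D.Ω) : D.Yz x ω = fun i => D.tW ω i / 2 ^ (D.X - x) := by
  funext i
  unfold Yz tW
  refine Fin.cases ?_ (fun j => ?_) i
  · rw [Fin.cons_zero, Fin.cons_zero]
  · rw [Fin.cons_succ, Fin.cons_succ]

lemma zz_eq (ω : D.Ω) (i : Fin (k + 1)) : D.zz ω i = (D.tW ω i : ℝ) / 2 ^ D.X := by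
  unfold zz tW ta w
  refine Fin.cases ?_ (fun j => ?_) i
  · rw [Fin.cons_zero, Fin.cons_zero]
  · rw [Fin.cons_succ, Fin.cons_succ]

lemma Yz_dg (hx : x ≤ D.X) (ω : D.Ω) (i : Fin (k + 1)) : D.Yz x ω i = dg x (D.zz ω i) := by
  rw [Yz_eq, zz_eq, dg_coarse hx]
  unfold dg
  have : (2 : ℝ) ^ D.X * ((D.tW ω i : ℝ) / 2 ^ D.X) = D.tW ω i := by field_simp
  rw [this, Int.floor_intCast]

lemma Yz_mem (hD : D.Ok K) (hx : x ≤ D.X) (ω : D.Ω) (i : Fin (k + 1)) :
    0 ≤ D.Yz x ω i ∧ D.Yz x ω i < 2 ^ x := by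
  rw [Yz_dg hx]
  obtain ⟨h1, h2⟩ := zz_mem hD ω i
  unfold dg
  constructor
  · rw [Int.floor_nonneg]; positivity
  · rw [Int.floor_lt]
    push_cast
    have : (0 : ℝ) < 2 ^ x := by positivity
    nlinarith

lemma Yz_near (hx : x ≤ D.X) (ω : D.Ω) (i : Fin (k + 1)) :
    |D.zz ω i - (D.Yz x ω i : ℝ) / 2 ^ x| ≤ 1 / 2 ^ x := by
  rw [Yz_dg hx]
  exact dg_le x _

/-- The scaled total shape. -/
noncomputable def kt (D : Cd k) (K c₂ s c₃ : ℕ) (u : Om D K) : Pl (k + 1) :=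
  MvPolynomial.C (1 / 2 ^ c₃) * D.Ft K c₂ s u

lemma kt_congr {u u' : Om D K} (h : D.Ft K c₂ s u = D.Ft K c₂ s u') :
    D.kt K c₂ s c₃ u = D.kt K c₂ s c₃ u' := by
  unfold kt
  rw [h]

lemma kt_coeff {u : Om D K} (hm : ml (D.Ft K c₂ s u) ≤ 2 ^ c₃) (α : Fin (k + 1) →₀ ℕ) :
    |MvPolynomial.coeff α (D.kt K c₂ s c₃ u)| ≤ 1 := by
  unfold kt
  rw [MvPolynomial.coeff_C_mul, abs_mul, abs_of_pos (by positivity : (0 : ℝ) < 1 / 2 ^ c₃),
    one_div_mul_eq_div, div_le_one (by positivity)]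
  exact (coeff_le_ml _ α).trans hm

/-- The height, the height over the total shape and the total shape at the rounded position. -/
lemma kt_near (hD : D.Ok K) {u : Om D K} (hA : D.Apx K k₀ δ u) (hx : x ≤ D.X)
    (hm : ml (D.Ft K c₂ s u) ≤ 2 ^ c₃) :
    |((dg x (D.nu u.2 / 2 ^ c₃) : ℤ) : ℝ) - (D.n3 K c₂ s c₃ x u : ℤ) - 2 ^ x *
      MvPolynomial.eval (fun i => ((D.Yz x u.2 i : ℤ) : ℝ) / 2 ^ x) (D.kt K c₂ s c₃ u)| ≤
      K * (K + 1) + K + 2 := by
  have hx0 : (0 : ℝ) < 2 ^ x := by positivity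
  have hc0 : (0 : ℝ) < 2 ^ c₃ := by positivity
  have hz : ∀ i, |D.zz u.2 i| ≤ 1 := fun i => by
    obtain ⟨h1, h2⟩ := zz_mem hD u.2 i
    rw [abs_of_nonneg h1]
    exact h2.le
  have hy : ∀ i, |((D.Yz x u.2 i : ℤ) : ℝ) / 2 ^ x| ≤ 1 := fun i => by
    obtain ⟨h1, h2⟩ := Yz_mem hD hx u.2 i
    have h1' : (0 : ℝ) ≤ D.Yz x u.2 i := by exact_mod_cast h1
    have h2' : (D.Yz x u.2 i : ℝ) < 2 ^ x := by exact_mod_cast h2
    rw [abs_of_nonneg (by positivity), div_le_one hx0]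
    exact h2'.le
  have hl := lip_ml (D.Ft K c₂ s u) hz hy (r := 1 / 2 ^ x) (by positivity)
    (fun i => Yz_near hx u.2 i)
  have hdeg : ((D.Ft K c₂ s u).totalDegree : ℝ) ≤ K * (K + 1) + K := by
    exact_mod_cast Ft_degR hD hA
  have hl2 : |MvPolynomial.eval (D.zz u.2) (D.Ft K c₂ s u) - MvPolynomial.eval
      (fun i => ((D.Yz x u.2 i : ℤ) : ℝ) / 2 ^ x) (D.Ft K c₂ s u)| ≤
      (K * (K + 1) + K) * 2 ^ c₃ * (1 / 2 ^ x) := by
    refine hl.trans (mul_le_mul_of_nonneg_right ?_ (by positivity))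
    exact mul_le_mul hdeg hm (ml_nn _) (by positivity)
  have e1 : MvPolynomial.eval (fun i => ((D.Yz x u.2 i : ℤ) : ℝ) / 2 ^ x) (D.kt K c₂ s c₃ u) =
      MvPolynomial.eval (fun i => ((D.Yz x u.2 i : ℤ) : ℝ) / 2 ^ x) (D.Ft K c₂ s u) / 2 ^ c₃ := by
    unfold kt
    rw [map_mul, MvPolynomial.eval_C, one_div_mul_eq_div]
  rw [e1]
  set A := MvPolynomial.eval (D.zz u.2) (D.Ft K c₂ s u) with hAd
  set B := MvPolynomial.eval (fun i => ((D.Yz x u.2 i : ℤ) : ℝ) / 2 ^ x) (D.Ft K c₂ s u) with hB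
  have h1 : |2 ^ x * (A / 2 ^ c₃) - 2 ^ x * (B / 2 ^ c₃)| ≤ K * (K + 1) + K := by
    have e2 : 2 ^ x * (A / 2 ^ c₃) - 2 ^ x * (B / 2 ^ c₃) = 2 ^ x / 2 ^ c₃ * (A - B) := by
      field_simp
    rw [e2, abs_mul, abs_of_pos (by positivity)]
    refine (mul_le_mul_of_nonneg_left hl2 (by positivity)).trans (le_of_eq ?_)
    field_simp
  have h2 : |((dg x (D.nu u.2 / 2 ^ c₃) : ℤ) : ℝ) - 2 ^ x * (D.nu u.2 / 2 ^ c₃)| ≤ 1 := by
    unfold dg
    have a1 := Int.floor_le ((2 : ℝ) ^ x * (D.nu u.2 / 2 ^ c₃))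
    have a2 := Int.lt_floor_add_one ((2 : ℝ) ^ x * (D.nu u.2 / 2 ^ c₃))
    rw [abs_le]
    constructor <;> linarith
  have h3 : |(D.n3 K c₂ s c₃ x u : ℝ) - 2 ^ x * ((D.nu u.2 - A) / 2 ^ c₃)| ≤ 1 := by
    unfold n3 dg
    have a1 := Int.floor_le ((2 : ℝ) ^ x * ((D.nu u.2 - A) / 2 ^ c₃))
    have a2 := Int.lt_floor_add_one ((2 : ℝ) ^ x * ((D.nu u.2 - A) / 2 ^ c₃))
    rw [← hAd, abs_le]
    constructor <;> linarith
  have e3 : ((dg x (D.nu u.2 / 2 ^ c₃) : ℤ) : ℝ) - (D.n3 K c₂ s c₃ x u : ℤ) -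
      2 ^ x * (B / 2 ^ c₃) =
      (((dg x (D.nu u.2 / 2 ^ c₃) : ℤ) : ℝ) - 2 ^ x * (D.nu u.2 / 2 ^ c₃)) -
      ((D.n3 K c₂ s c₃ x u : ℝ) - 2 ^ x * ((D.nu u.2 - A) / 2 ^ c₃)) +
      (2 ^ x * (A / 2 ^ c₃) - 2 ^ x * (B / 2 ^ c₃)) := by ring
  rw [e3]
  rw [abs_le] at h1 h2 h3 ⊢
  constructor <;> linarith [h1.1, h1.2, h2.1, h2.2, h3.1, h3.2]

/-- The scaled height is the height to fewer digits. -/
lemma dg_scale {x c : ℕ} (hc : c ≤ x) (y : ℝ) : dg x (y / 2 ^ c) = dg (x - c) y := by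
  unfold dg
  congr 1
  have : (2 : ℝ) ^ x = 2 ^ (x - c) * 2 ^ c := by
    rw [← pow_add]
    congr 1
    omega
  rw [this]
  field_simp

end Cd

open Cd in
/-- **Second application of W0.** -/
theorem w2_thm : W2Stmt := by
  intro k K c₀ hc₀ hc₀1
  obtain ⟨CF, hCF1, hF2⟩ := f2_thm k K
  obtain ⟨σ, ι, C, X₀, hσ, hσ1, hι, hC1, hw⟩ := w0r (k + 1) (K * (K + 1) + K) (c₀ / 2)
    (K * (K + 1) + K + 2) (by positivity) (by linarith) (by positivity)
  have hK : (0 : ℝ) ≤ K := Nat.cast_nonneg _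
  -- the constant of the error
  obtain ⟨A, hA⟩ : ∃ A : ℝ, A = 2 * CF + 20 + 4 * (K * (K + 1) + K + 2) := ⟨_, rfl⟩
  have hA0 : 0 < A := by rw [hA]; positivity
  have hA20 : 20 ≤ A := by rw [hA]; nlinarith
  have hACF : 2 * CF + 20 ≤ A := by rw [hA]; nlinarith
  obtain ⟨ι', hι'⟩ : ∃ ι' : ℝ, ι' = min 1 (min (ι / (2 * A)) (c₀ / (8 * A))) := ⟨_, rfl⟩
  have hι'0 : 0 < ι' := by
    rw [hι']
    exact lt_min (by norm_num) (lt_min (by positivity) (by positivity))
  have hι'1 : ι' ≤ 1 := by rw [hι']; exact min_le_left _ _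
  have hι'2 : ι' ≤ ι / (2 * A) := by
    rw [hι']; exact (min_le_right _ _).trans (min_le_left _ _)
  have hι'3 : ι' ≤ c₀ / (8 * A) := by
    rw [hι']; exact (min_le_right _ _).trans (min_le_right _ _)
  obtain ⟨X₁, hX₁⟩ : ∃ X₁ : ℕ, 2 * A / ι + 8 * A / c₀ ≤ X₁ := exists_nat_ge _
  refine ⟨σ, ι', C * (A + 1), max X₀ X₁, hσ, hσ1, hι'0, by nlinarith, ?_⟩
  intro D q θ d δ κ k₀ c₂ s c₃ x s' hD hF hAp hNF hθ hδ0 hrk hX hxh hs hδ hc23 hrX _ hκ hsmall hs'
    hd hl hm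
  have hq := hF.law
  have hp := hq.nonneg
  have hX0 : X₀ ≤ x := (le_max_left _ _).trans hX
  have hX1 : (X₁ : ℝ) ≤ x := by exact_mod_cast (le_max_right _ _).trans hX
  have hxpos : (0 : ℝ) ≤ x := Nat.cast_nonneg _
  have hx1 : 2 * A ≤ ι * x := by
    have h1 : 2 * A / ι ≤ x := by
      have : 0 ≤ 8 * A / c₀ := by positivity
      linarith
    rw [div_le_iff₀ hι] at h1
    linarith
  have hx2 : 8 * A ≤ c₀ * x := by
    have h1 : 8 * A / c₀ ≤ x := by
      have : 0 ≤ 2 * A / ι := by positivity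
      linarith
    rw [div_le_iff₀ hc₀] at h1
    linarith
  have hb0 : (0 : ℝ) ≤ D.b := Nat.cast_nonneg _
  have hr0 : (0 : ℝ) ≤ D.r := Nat.cast_nonneg _
  have hc30 : (0 : ℝ) ≤ c₃ := Nat.cast_nonneg _
  have hc3x : c₃ ≤ x := by
    have h1 : (c₃ : ℝ) ≤ x := by
      have : ι' * x ≤ 1 * x := mul_le_mul_of_nonneg_right hι'1 hxpos
      linarith
    exact_mod_cast h1
  have hxX : x ≤ D.X := by omega
  -- the smallness
  have hs1 : 2 * A * (θ + D.b + D.r) ≤ ι * x := by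
    have h1 : 2 * A * (θ + D.b + D.r) ≤ 2 * A * (ι' * x) :=
      mul_le_mul_of_nonneg_left (by linarith) (by positivity)
    have h2 : 2 * A * (ι' * x) ≤ 2 * A * (ι / (2 * A) * x) :=
      mul_le_mul_of_nonneg_left (mul_le_mul_of_nonneg_right hι'2 hxpos) (by positivity)
    have h3 : 2 * A * (ι / (2 * A) * x) = ι * x := by field_simp
    linarith
  have hs2 : 8 * A * (θ + D.b + D.r) ≤ c₀ * x := by
    have h1 : 8 * A * (θ + D.b + D.r) ≤ 8 * A * (ι' * x) :=
      mul_le_mul_of_nonneg_left (by linarith) (by positivity)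
    have h2 : 8 * A * (ι' * x) ≤ 8 * A * (c₀ / (8 * A) * x) :=
      mul_le_mul_of_nonneg_left (mul_le_mul_of_nonneg_right hι'3 hxpos) (by positivity)
    have h3 : 8 * A * (c₀ / (8 * A) * x) = c₀ * x := by field_simp
    linarith
  -- F2
  have hf := hF2 D q θ d δ k₀ c₂ s c₃ x hD hF hAp hθ hδ0 hrk hxh hs hδ hc23 hrX hd hl hm
  obtain ⟨n3, hn3⟩ : ∃ r : Om D K → ℤ, r = D.n3 K c₂ s c₃ x := ⟨_, rfl⟩
  obtain ⟨nu2, hnu2⟩ : ∃ r : Om D K → ℤ, r = fun u => dg x (D.nu u.2 / 2 ^ c₃) := ⟨_, rfl⟩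
  obtain ⟨Y, hY⟩ : ∃ r : Om D K → Fin (k + 1) → ℤ, r = fun u => D.Yz x u.2 := ⟨_, rfl⟩
  obtain ⟨kt, hkt⟩ : ∃ r : Om D K → Pl (k + 1), r = D.kt K c₂ s c₃ := ⟨_, rfl⟩
  obtain ⟨V, hV⟩ : ∃ r : Om D K → Fin (k + 1) → ℤ, r = fun u => D.tW u.2 := ⟨_, rfl⟩
  -- the fullness of the vector
  have e1 : ((k : ℝ) + 1) * (D.X * Real.log 2) - (CF * (θ + 1) + D.r) ≤
      CH q V (fun u => (n3 u, (kt u, D.Z u.2))) := by
    refine hf.trans ?_
    have h1 : CH q (fun u => (D.t u.2, D.W u.2))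
        (fun u => (D.n3 K c₂ s c₃ x u, (D.Ft K c₂ s u, D.Z u.2))) ≤
        CH q V (fun u => (D.n3 K c₂ s c₃ x u, (D.Ft K c₂ s u, D.Z u.2))) := by
      refine CH_mono_left hp fun u u' _ _ e => ?_
      have e2 : V u = V u' := (Prod.ext_iff.1 e).1
      rw [hV] at e2
      simp only [tW] at e2
      have e3 := congrFun e2 0
      rw [Fin.cons_zero, Fin.cons_zero] at e3
      have e4 : D.W u.2 = D.W u'.2 := funext fun i => by
        have := congrFun e2 i.succ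
        rwa [Fin.cons_succ, Fin.cons_succ] at this
      exact Prod.ext e3 e4
    have h2 : CH q V (fun u => (D.n3 K c₂ s c₃ x u, (D.Ft K c₂ s u, D.Z u.2))) ≤
        CH q V (fun u => (n3 u, (kt u, D.Z u.2))) := by
      refine CH_mono_cond hp fun u u' _ _ e => ?_
      simp only [Prod.mk.injEq, hn3, hkt] at e ⊢
      exact ⟨e.1, kt_congr e.2.1, e.2.2⟩
    exact h1.trans h2
  have hkc : (((k + 1 : ℕ) : ℕ) : ℝ) = (k : ℝ) + 1 := by push_cast; ring
  -- H1
  have H1 : Ic q kt (fun u => (nu2 u, Y u)) (fun u => D.Z u.2) ≤ 2 * θ := by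
    obtain ⟨kp, hkp⟩ : ∃ r : Om D K → ((Fin 1 →₀ ℕ) → ℤ), r = fun u => rk s (D.kap K c₂ u) :=
      ⟨_, rfl⟩
    have i6 := hF.i6
    have j1 : Ic q kt (fun u => (nu2 u, Y u)) (fun u => D.Z u.2) ≤
        Ic q kt (fun u => (D.nh u.2, (D.W u.2, D.t u.2))) (fun u => D.Z u.2) := by
      refine Ic_mono_right hp fun u u' _ _ e => ?_
      simp only [Prod.mk.injEq] at e
      obtain ⟨⟨a1, a2, a3⟩, a4⟩ := e
      have b1 : nu2 u = nu2 u' := by
        rw [hnu2]
        simp only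
        have key : ∀ y : ℝ, dg (x - c₃) y = dg D.h y / 2 ^ (D.h - (x - c₃)) := fun y =>
          dg_coarse (by omega) y
        unfold nh at a1
        rw [dg_scale hc3x, dg_scale hc3x, key (D.nu u.2), key (D.nu u'.2), a1]
      have b2 : Y u = Y u' := by
        rw [hY]
        simp only
        unfold Yz
        rw [a2, a3]
      exact Prod.ext b1 b2
    have j2 : Ic q kt (fun u => (D.nh u.2, (D.W u.2, D.t u.2))) (fun u => D.Z u.2) ≤
        Ic q (fun u => (kp u, (D.ref K u, D.gm u.2)))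
          (fun u => (D.nh u.2, (D.W u.2, D.t u.2))) (fun u => D.Z u.2) := by
      refine Ic_mono_left hp fun u u' hu hu' e => ?_
      simp only [Prod.mk.injEq, hkp] at e
      obtain ⟨⟨a1, a2, a3⟩, a4⟩ := e
      rw [hkt]
      exact kt_congr (Ft_congr hD (hF.supp u hu).1 (hF.supp u' hu').1 a1 a2 a3)
    have j3 := Ic_near_left hp (fun u => (D.ref K u, D.gm u.2))
      (fun u => (kp u, (D.ref K u, D.gm u.2)))
      (fun u => (D.nh u.2, (D.W u.2, D.t u.2))) (fun u => D.Z u.2)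
    have j4 : CH q (fun u => (kp u, (D.ref K u, D.gm u.2)))
        (fun u => ((D.ref K u, D.gm u.2), D.Z u.2)) ≤
        CH q kp (fun u => ((D.ref K u, D.gm u.2), D.Z u.2)) := by
      refine CH_mono_left hp fun u u' _ _ e => ?_
      simp only [Prod.mk.injEq] at e ⊢
      exact ⟨e.1, e.2.1⟩
    have j5 : CH q kp (fun u => ((D.ref K u, D.gm u.2), D.Z u.2)) ≤
        CH q kp (fun u => (D.ref K u, D.gm u.2)) :=
      CH_mono_cond hp fun _ _ _ _ e => (Prod.ext_iff.1 e).1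
    have j6 : CH q kp (fun u => (D.ref K u, D.gm u.2)) ≤ θ := by rw [hkp]; exact hrk
    linarith
  -- H3
  have hH3 : CH q nu2 (fun u => (Y u, D.Z u.2)) ≤ (1 - c₀ / 2) * (x * Real.log 2) := by
    -- the nonfull digits
    have n1 := hNF (Om D K) q (fun u => u.2) ⟨hq, hF.dens⟩ 0 (x - c₃) (Nat.zero_le _)
      (by omega) (by
        rw [Nat.cast_sub hc3x]
        push_cast
        linarith)
    have n2 : CH q nu2 (fun u => (D.W u.2, (D.t u.2, D.Z u.2))) ≤
        CH q nu2 (fun u => (dg 0 (D.nu u.2), (D.W u.2, (D.t u.2, D.Z u.2)))) +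
        CH q (fun u => dg 0 (D.nu u.2)) (fun u => (D.W u.2, (D.t u.2, D.Z u.2))) :=
      CH_few hp _ _ _
    have n3' : CH q (fun u => dg 0 (D.nu u.2)) (fun u => (D.W u.2, (D.t u.2, D.Z u.2))) ≤
        D.b + 3 := by
      refine (CH_near hq (fun u => D.nu u.2) (fun _ => 0) _ (fun _ _ _ _ _ => rfl) (c := 2 ^ D.b)
        0 fun u _ => ?_).trans (log_pow_le D.b)
      rw [sub_zero, pow_zero, div_one]
      exact hD.nu_le u.2
    have n4 : CH q nu2 (fun u => (dg 0 (D.nu u.2), (D.W u.2, (D.t u.2, D.Z u.2)))) ≤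
        (1 - c₀) * (x * Real.log 2) := by
      have h1 : nu2 = fun u => dg (x - c₃) (D.nu u.2) := by
        rw [hnu2]
        funext u
        exact dg_scale hc3x _
      rw [h1]
      refine n1.trans ?_
      rw [Nat.cast_sub hc3x]
      have hlog0 : 0 ≤ Real.log 2 := Real.log_nonneg (by norm_num)
      have h2 : (1 - c₀) * ((x : ℝ) - c₃ - ((0 : ℕ) : ℝ)) * Real.log 2 =
          (1 - c₀) * (x * Real.log 2) - (1 - c₀) * (c₃ * Real.log 2) := by
        push_cast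
        ring
      rw [h2]
      have : 0 ≤ (1 - c₀) * (c₃ * Real.log 2) := mul_nonneg (by linarith) (by positivity)
      linarith
    -- the rounding of the position
    have m1 : CH q nu2 (fun u => (Y u, D.Z u.2)) =
        Ic q nu2 V (fun u => (Y u, D.Z u.2)) + CH q nu2 (fun u => (V u, (Y u, D.Z u.2))) := by
      unfold Ic
      ring
    have m2 : CH q nu2 (fun u => (V u, (Y u, D.Z u.2))) ≤
        CH q nu2 (fun u => (D.W u.2, (D.t u.2, D.Z u.2))) := by
      refine CH_mono_cond hp fun u u' _ _ e => ?_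
      simp only [Prod.mk.injEq, hV, tW] at e ⊢
      have e3 := congrFun e.1 0
      rw [Fin.cons_zero, Fin.cons_zero] at e3
      have e4 : D.W u.2 = D.W u'.2 := funext fun i => by
        have := congrFun e.1 i.succ
        rwa [Fin.cons_succ, Fin.cons_succ] at this
      exact ⟨e4, e3, e.2.2⟩
    have m3 := Ic_near_left hp (fun u => (n3 u, kt u)) nu2 V (fun u => (Y u, D.Z u.2))
    have m4 : CH q nu2 (fun u => ((n3 u, kt u), (Y u, D.Z u.2))) ≤
        4 * (K * (K + 1) + K + 2) + 2 := by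
      have h1 := CH_int hq nu2 (fun u => ((n3 u, kt u), (Y u, D.Z u.2)))
        (c := 2 * (K * (K + 1) + K + 2)) (fun u u' hu hu' e => by
          simp only [Prod.mk.injEq] at e
          obtain ⟨⟨a1, a2⟩, a3, a4⟩ := e
          have b1 := kt_near hD (hAp u hu) hxX (hm u hu)
          have b2 := kt_near hD (hAp u' hu') hxX (hm u' hu')
          rw [hn3] at a1
          rw [hkt] at a2
          rw [hY] at a3
          simp only at a3
          rw [a1, a2, a3] at b1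
          rw [hnu2]
          simp only
          push_cast at b1 b2 ⊢
          rw [abs_le] at b1 b2 ⊢
          constructor <;> linarith [b1.1, b1.2, b2.1, b2.2])
      refine h1.trans ?_
      have h2 := log_lin (x := 2 * (2 * ((K : ℝ) * (K + 1) + K + 2))) (by positivity)
      linarith
    have m5 : Ic q (fun u => (n3 u, kt u)) V (fun u => (Y u, D.Z u.2)) ≤
        Ic q (fun u => (n3 u, kt u)) V (fun u => D.Z u.2) := by
      refine (Ic_cond_le hp (fun u => (n3 u, kt u)) V Y (fun u => D.Z u.2)).trans ?_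
      refine Ic_mono_right hp fun u u' _ _ e => ?_
      simp only [Prod.mk.injEq] at e ⊢
      refine ⟨?_, e.1⟩
      rw [hY]
      simp only
      rw [Yz_eq, Yz_eq]
      have : D.tW u.2 = D.tW u'.2 := by
        have := e.1
        rw [hV] at this
        exact this
      rw [this]
    have m6 : Ic q (fun u => (n3 u, kt u)) V (fun u => D.Z u.2) ≤ CF * (θ + 1) + D.r := by
      rw [Ic_symm hp]
      unfold Ic
      have h1 : CH q V (fun u => D.Z u.2) ≤ ((k + 1 : ℕ) : ℝ) * (D.X * Real.log 2) :=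
        CH_lt_vec hq V _ fun u _ i => by
          rw [hV]
          exact tW_lt hD u.2 i
      have h2 : CH q V (fun u => (n3 u, (kt u, D.Z u.2))) =
          CH q V (fun u => ((n3 u, kt u), D.Z u.2)) := by
        refine CH_congr hp (fun _ _ _ _ h => (Prod.ext_iff.1 h).1)
          (fun _ _ _ _ h => (Prod.ext_iff.1 h).1) ?_ ?_ <;> intro u u' _ _ h <;>
          simp only [Prod.mk.injEq] at h ⊢ <;> tauto
      rw [hkc] at h1
      linarith
    have hlog : (1 / 2 : ℝ) ≤ Real.log 2 := by linarith [Real.log_two_gt_d9]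
    have hfin : (D.b : ℝ) + 3 + (CF * (θ + 1) + D.r) + (4 * (K * (K + 1) + K + 2) + 2) ≤
        c₀ / 2 * (x * Real.log 2) := by
      have h1 : (D.b : ℝ) + 3 + (CF * (θ + 1) + D.r) + (4 * (K * (K + 1) + K + 2) + 2) ≤
          A * (θ + D.b + D.r) + A := by
        have h2 : CF * θ ≤ A * θ := mul_le_mul_of_nonneg_right (by linarith) hθ
        have h3 : (D.b : ℝ) ≤ A * D.b := le_mul_of_one_le_left hb0 (by linarith)
        have h4 : (D.r : ℝ) ≤ A * D.r := le_mul_of_one_le_left hr0 (by linarith)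
        have h5 : CF + 5 + 4 * (K * (K + 1) + K + 2) ≤ A := by rw [hA]; linarith
        have e5 : A * (θ + D.b + D.r) = A * θ + A * D.b + A * D.r := by ring
        have e6 : CF * (θ + 1) = CF * θ + CF := by ring
        rw [e5, e6]
        linarith
      have h6 : 4 * (A * (θ + D.b + D.r) + A) ≤ c₀ * x := by
        have e5 : 8 * A * (θ + D.b + D.r) = 8 * (A * (θ + D.b + D.r)) := by ring
        rw [e5] at hs2
        linarith
      have h7 : c₀ / 2 * (x * (1 / 2)) ≤ c₀ / 2 * (x * Real.log 2) :=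
        mul_le_mul_of_nonneg_left (mul_le_mul_of_nonneg_left hlog hxpos) (by positivity)
      have h8 : c₀ / 2 * ((x : ℝ) * (1 / 2)) = c₀ * x / 4 := by ring
      rw [h8] at h7
      linarith
    have hex : (1 - c₀ / 2) * (x * Real.log 2) =
        (1 - c₀) * (x * Real.log 2) + c₀ / 2 * (x * Real.log 2) := by ring
    rw [hex, m1]
    linarith
  -- H2
  have hH2 : ((k + 1 : ℕ) : ℝ) * (x * Real.log 2) - (CF * (θ + 1) + D.r) ≤
      CH q Y (fun u => (n3 u, (kt u, D.Z u.2))) := by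
    have h1 := full_fst_vec hq V (fun u => (n3 u, (kt u, D.Z u.2))) hxX (by
      rw [hkc]; exact e1)
    have h2 : (fun (u : Om D K) i => V u i / 2 ^ (D.X - x)) = Y := by
      rw [hY, hV]
      funext u
      rw [Yz_eq]
    rw [h2] at h1
    exact h1
  -- W0
  obtain ⟨θ', hθ'⟩ : ∃ θ' : ℝ, θ' = (CF + 2) * (θ + 1) + D.r := ⟨_, rfl⟩
  have hθ'0 : 0 ≤ θ' := by rw [hθ']; positivity
  have hθ'A : θ' ≤ A * (θ + D.r) + A := by
    rw [hθ']
    have h1 : (CF + 2) * θ ≤ A * θ := mul_le_mul_of_nonneg_right (by linarith) hθ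
    have h2 : (D.r : ℝ) ≤ A * D.r := le_mul_of_one_le_left hr0 (by linarith)
    have e1 : (CF + 2) * (θ + 1) = (CF + 2) * θ + (CF + 2) := by ring
    have e2 : A * (θ + D.r) = A * θ + A * D.r := by ring
    rw [e1, e2]
    linarith
  obtain ⟨E, hE, hE2⟩ := hw (Om D K) D.ζ q x s' (fun u => D.Z u.2) Y n3 nu2 kt θ' hq hX0 hθ'0
    (by
      have h1 : 2 * (A * (θ + D.r)) ≤ ι * x := by
        have : 2 * A * (θ + D.r) ≤ 2 * A * (θ + D.b + D.r) :=
          mul_le_mul_of_nonneg_left (by linarith) (by positivity)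
        linarith
      linarith)
    hs'
    (fun u _ i => by
      rw [hY]
      obtain ⟨h1, h2⟩ := Yz_mem hD hxX u.2 i
      have h1' : (0 : ℝ) ≤ D.Yz x u.2 i := by exact_mod_cast h1
      have h2' : (D.Yz x u.2 i : ℝ) < 2 ^ x := by exact_mod_cast h2
      simp only
      rw [abs_of_nonneg h1']
      exact h2'.le)
    (fun u hu => by
      rw [hkt]
      unfold Cd.kt
      refine (MvPolynomial.totalDegree_mul _ _).trans ?_
      rw [MvPolynomial.totalDegree_C, zero_add]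
      exact Ft_degR hD (hAp u hu))
    (fun u hu α _ => by
      rw [hkt]
      exact kt_coeff (hm u hu) α)
    (fun u hu => by
      rw [hkt, hn3, hY, hnu2]
      exact kt_near hD (hAp u hu) hxX (hm u hu))
    (by
      unfold Ic at H1
      have h1 : CH q kt (fun u => ((nu2 u, Y u), D.Z u.2)) =
          CH q kt (fun u => (nu2 u, (Y u, D.Z u.2))) := by
        refine CH_congr hp (fun _ _ _ _ h => (Prod.ext_iff.1 h).1)
          (fun _ _ _ _ h => (Prod.ext_iff.1 h).1) ?_ ?_ <;> intro u u' _ _ h <;>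
          simp only [Prod.mk.injEq] at h ⊢ <;> tauto
      rw [h1] at H1
      have h2 : 2 * θ ≤ θ' := by
        have e1 : (CF + 2) * (θ + 1) = CF * θ + CF + 2 * θ + 2 := by ring
        have e2 : 0 ≤ CF * θ := mul_nonneg (by linarith) hθ
        rw [hθ', e1]
        linarith
      linarith)
    (by
      have h2 : CF * (θ + 1) + D.r ≤ θ' := by
        have e1 : (CF + 2) * (θ + 1) = CF * (θ + 1) + 2 * (θ + 1) := by ring
        rw [hθ', e1]
        linarith
      linarith)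
    hH3
  refine ⟨E, by
    have : c₀ / 2 / 4 = c₀ / 8 := by ring
    rw [← this]
    exact hE, ?_⟩
  rw [hkt] at hE2
  refine hE2.trans ?_
  have h1 : θ' + 1 ≤ (A + 1) * (θ + D.r + 1) := by
    have e1 : (A + 1) * (θ + D.r + 1) = A * (θ + D.r) + A + (θ + D.r) + 1 := by ring
    rw [e1]
    linarith
  have hC0 : 0 ≤ C := by linarith
  calc C * (θ' + 1) ≤ C * ((A + 1) * (θ + D.r + 1)) := mul_le_mul_of_nonneg_left h1 hC0
    _ = C * (A + 1) * (θ + D.r + 1) := by ring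

end Pool.TIE
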