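import Pool.Agent.H88.TIE.Stm
import Pool.Agent.H46.MIC.Ev

/-!
# From events to sub-laws

A law of density at most `1 / π` with respect to `p` is a mixture of the laws `p (· | E)`, `E` the
upper level sets of the density.
-/

set_option autoImplicit false

namespace Pool.TIE

open Finset
open Pool.Agent.H49.Ent Pool.Agent.H32.Dense Pool.STK Pool.BFL Pool.MIC

/-- The image law. -/
lemma marg_law {Ω Ω' : Type} [Fintype Ω'] (q : Ω' → ℝ) (f : Ω' → Ω) : Marg q (law q f) f := by
  intro ω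
  rfl

lemma isLaw_marg {Ω Ω' : Type} [Fintype Ω] [Fintype Ω'] {q : Ω' → ℝ} {p : Ω → ℝ} {f : Ω' → Ω}
    (h : Marg q p f) (hq : IsLaw q) : IsLaw p := by
  classical
  refine ⟨fun ω => ?_, ?_⟩
  · rw [← h ω]
    exact Finset.sum_nonneg fun i _ => by split_ifs; exacts [hq.nonneg i, le_rfl]
  · rw [← h.sum, hq.sum_one]

/-- A mixture: entropy is at most the mean entropy of the parts plus the entropy of the index. -/
theorem CH_le_mix {Ω : Type} [Fintype Ω] {p : Ω → ℝ} (hp : IsLaw p) {S T : Type} (X : Ω → S)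
    (W : Ω → T) {n : ℕ} (J : Ω → Fin n) :
    CH p X W ≤ ∑ j, law p J j * CH (cond p J j) X W + Real.log n := by
  classical
  have h1 := CH_le_add hp.nonneg X J W
  have h2 : CH p J W ≤ Real.log n := by
    have h := CH_le_card hp.nonneg hp.sum_one J W (fun _ => (univ : Finset (Fin n)))
      (fun ω _ => Finset.mem_univ _)
    refine h.trans (le_of_eq ?_)
    simp only [Finset.card_univ, Fintype.card_fin]
    rw [Ex_const hp.sum_one]
  have h3 : CH p X (fun ω => (J ω, W ω)) = ∑ j, law p J j * CH (cond p J j) X W := by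
    rw [CH_swc hp.nonneg X J W, CH_split hp.nonneg X W J]
    refine Finset.sum_subset (Finset.subset_univ _) fun j _ hj => ?_
    rw [law_eq_zero_of_notMem p J hj, zero_mul]
  linarith

/-- The entropy of a mixture is at least the mean entropy of the parts. -/
theorem mix_le_CH {Ω : Type} [Fintype Ω] {p : Ω → ℝ} (hp : IsLaw p) {S T : Type} (X : Ω → S)
    (W : Ω → T) {n : ℕ} (J : Ω → Fin n) :
    ∑ j, law p J j * CH (cond p J j) X W ≤ CH p X W := by
  classical
  have h3 : CH p X (fun ω => (J ω, W ω)) = ∑ j, law p J j * CH (cond p J j) X W := by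
    rw [CH_swc hp.nonneg X J W, CH_split hp.nonneg X W J]
    refine Finset.sum_subset (Finset.subset_univ _) fun j _ hj => ?_
    rw [law_eq_zero_of_notMem p J hj, zero_mul]
  rw [← h3]
  exact CH_mono_cond hp.nonneg fun _ _ _ _ h => (Prod.ext_iff.1 h).2

/-- The decomposition along the levels of the density. -/
noncomputable def lv {Ω : Type} (p q : Ω → ℝ) (δ : ℝ) (L : ℕ) (w : Ω × Fin (L + 1)) : ℝ :=
  Fin.cases (q w.1 - (⌊q w.1 / (δ * p w.1)⌋₊ : ℝ) * (δ * p w.1))
    (fun i : Fin L => if (i : ℕ) < ⌊q w.1 / (δ * p w.1)⌋₊ then δ * p w.1 else 0) w.2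

lemma lv_zero {Ω : Type} (p q : Ω → ℝ) (δ : ℝ) (L : ℕ) (ω : Ω) :
    lv p q δ L (ω, 0) = q ω - (⌊q ω / (δ * p ω)⌋₊ : ℝ) * (δ * p ω) := rfl

lemma lv_succ {Ω : Type} (p q : Ω → ℝ) (δ : ℝ) (L : ℕ) (ω : Ω) (i : Fin L) :
    lv p q δ L (ω, i.succ) = if (i : ℕ) < ⌊q ω / (δ * p ω)⌋₊ then δ * p ω else 0 := rfl

section lv

variable {Ω : Type} [Fintype Ω] {p q : Ω → ℝ} {δ π : ℝ} {L : ℕ}

omit [Fintype Ω] in
lemma lv_bd (hp : ∀ ω, 0 ≤ p ω) (hq : ∀ ω, 0 ≤ q ω) (hδ : 0 < δ) (hπ : 0 < π)
    (hd : ∀ ω, π * q ω ≤ p ω) (hL : 1 / (π * δ) ≤ L) (ω : Ω) :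
    ⌊q ω / (δ * p ω)⌋₊ ≤ L ∧ 0 ≤ lv p q δ L (ω, 0) ∧ lv p q δ L (ω, 0) ≤ δ * p ω := by
  rw [lv_zero]
  rcases (hp ω).eq_or_lt with h0 | h0
  · have hq0 : q ω = 0 := by
      have := hd ω
      rw [← h0] at this
      have h2 : q ω ≤ 0 := by
        by_contra hc
        push Not at hc
        have := mul_pos hπ hc
        linarith
      exact le_antisymm h2 (hq ω)
    rw [← h0, hq0]
    simp
  · have hx : 0 < δ * p ω := mul_pos hδ h0
    have hx0 : 0 ≤ q ω / (δ * p ω) := div_nonneg (hq ω) hx.le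
    have e : q ω = (q ω / (δ * p ω)) * (δ * p ω) := by field_simp
    have h1 := Nat.floor_le hx0
    have h2 := Nat.lt_floor_add_one (q ω / (δ * p ω))
    refine ⟨?_, ?_, ?_⟩
    · refine Nat.floor_le_of_le (le_trans ?_ hL)
      rw [div_le_div_iff₀ hx (mul_pos hπ hδ)]
      have := hd ω
      nlinarith
    · have := mul_le_mul_of_nonneg_right h1 hx.le
      rw [← e] at this
      linarith
    · have := mul_le_mul_of_nonneg_right h2.le hx.le
      rw [← e] at this
      linarith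

omit [Fintype Ω] in
lemma lv_sum {ω : Ω} (h : ⌊q ω / (δ * p ω)⌋₊ ≤ L) : ∑ j, lv p q δ L (ω, j) = q ω := by
  rw [Fin.sum_univ_succ, lv_zero]
  have : ∑ i : Fin L, lv p q δ L (ω, i.succ) = (⌊q ω / (δ * p ω)⌋₊ : ℝ) * (δ * p ω) := by
    simp_rw [lv_succ]
    rw [Fin.sum_univ_eq_sum_range
      (fun i : ℕ => if i < ⌊q ω / (δ * p ω)⌋₊ then δ * p ω else 0) L, Finset.sum_ite,
      Finset.sum_const_zero, add_zero, Finset.sum_const, nsmul_eq_mul]
    congr 2
    have : (Finset.range L).filter (fun i => i < ⌊q ω / (δ * p ω)⌋₊) =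
        Finset.range ⌊q ω / (δ * p ω)⌋₊ := by
      ext i
      simp only [Finset.mem_filter, Finset.mem_range]
      omega
    rw [this, Finset.card_range]
  rw [this]
  ring

omit [Fintype Ω] in
lemma lv_nonneg (hp : ∀ ω, 0 ≤ p ω) (hq : ∀ ω, 0 ≤ q ω) (hδ : 0 < δ) (hπ : 0 < π)
    (hd : ∀ ω, π * q ω ≤ p ω) (hL : 1 / (π * δ) ≤ L) (w : Ω × Fin (L + 1)) :
    0 ≤ lv p q δ L w := by
  obtain ⟨ω, j⟩ := w
  refine Fin.cases ?_ (fun i => ?_) j
  · exact (lv_bd hp hq hδ hπ hd hL ω).2.1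
  · rw [lv_succ]
    split_ifs
    · exact mul_nonneg hδ.le (hp ω)
    · exact le_rfl

lemma lv_marg (h : ∀ ω, ⌊q ω / (δ * p ω)⌋₊ ≤ L) : Marg (lv p q δ L) q (fun w => w.1) := by
  classical
  intro ω
  rw [Fintype.sum_prod_type, Finset.sum_eq_single ω]
  · simpa using lv_sum (h ω)
  · intro b _ hb; simp [hb]
  · intro h; exact absurd (Finset.mem_univ _) h

lemma law_lv_zero : law (lv p q δ L) (fun w => w.2) 0 = ∑ ω, lv p q δ L (ω, 0) := by
  classical
  unfold law
  rw [Fintype.sum_prod_type]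
  refine Finset.sum_congr rfl fun ω _ => ?_
  rw [Finset.sum_eq_single (0 : Fin (L + 1))]
  · rw [if_pos rfl]
  · intro j _ hj
    rw [if_neg hj]
  · intro h; exact absurd (Finset.mem_univ _) h

lemma law_lv_succ (i : Fin L) : law (lv p q δ L) (fun w => w.2) i.succ =
    δ * Pb p (fun ω => (i : ℕ) < ⌊q ω / (δ * p ω)⌋₊) := by
  classical
  unfold law Pb
  rw [Fintype.sum_prod_type, Finset.mul_sum]
  refine Finset.sum_congr rfl fun ω _ => ?_
  rw [Finset.sum_eq_single i.succ]
  · rw [if_pos rfl, lv_succ]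
    split_ifs <;> simp
  · intro j _ hj
    rw [if_neg hj]
  · intro h; exact absurd (Finset.mem_univ _) h

lemma cond_lv_succ (hδ : 0 < δ) (i : Fin L) :
    Marg (cond (lv p q δ L) (fun w => w.2) i.succ)
      (cond p (fun ω => (i : ℕ) < ⌊q ω / (δ * p ω)⌋₊) True) (fun w => w.1) := by
  classical
  intro ω
  rw [Fintype.sum_prod_type, Finset.sum_eq_single ω]
  · have e : ∀ j : Fin (L + 1),
        (if (ω, j).1 = ω then cond (lv p q δ L) (fun w => w.2) i.succ (ω, j) else 0) =
          if j = i.succ then lv p q δ L (ω, j) / law (lv p q δ L) (fun w => w.2) i.succ else 0 := by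
      intro j
      rw [if_pos rfl]
      unfold Pool.Agent.H49.Ent.cond
      by_cases hj : j = i.succ
      · rw [if_pos hj, if_pos hj]
      · rw [if_neg hj, if_neg hj]
    have e2 : ∑ j : Fin (L + 1),
        (if (ω, j).1 = ω then cond (lv p q δ L) (fun w => w.2) i.succ (ω, j) else 0) =
          lv p q δ L (ω, i.succ) / law (lv p q δ L) (fun w => w.2) i.succ := by
      rw [Finset.sum_congr rfl fun j _ => e j, Finset.sum_ite_eq' univ i.succ
        (fun j => lv p q δ L (ω, j) / law (lv p q δ L) (fun w => w.2) i.succ)]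
      simp
    refine e2.trans ?_
    rw [law_lv_succ, lv_succ]
    unfold Pool.Agent.H49.Ent.cond
    by_cases h : (i : ℕ) < ⌊q ω / (δ * p ω)⌋₊
    · rw [if_pos h, if_pos (by simpa using h), law_True, mul_div_mul_left _ _ hδ.ne']
    · rw [if_neg h, if_neg (by simpa using h), zero_div]
  · intro b _ hb
    refine Finset.sum_eq_zero fun j _ => ?_
    rw [if_neg hb]
  · intro h; exact absurd (Finset.mem_univ _) h

end lv

/-- **From events to sub-laws.** -/
theorem dens : DensStmt := by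
  intro e π he hπ
  -- the step of the levels
  obtain ⟨δ, hδe⟩ : ∃ δ : ℝ, δ = e / 4 := ⟨_, rfl⟩
  have hδ : 0 < δ := by rw [hδe]; positivity
  obtain ⟨L, hL⟩ : ∃ L : ℕ, 1 / (π * δ) ≤ L := exists_nat_ge _
  refine ⟨1 / (L + 1), 2 * Real.log (L + 1) / e, by positivity, ?_⟩
  intro Ω α β _ p A B N M hp hM hUp hN Ω' _ q' f hq'
  set q : Ω → ℝ := law q' f with hqdef
  have hmarg : Marg q' q f := marg_law q' f
  have hq : IsLaw q := isLaw_marg hmarg hq'.isLaw
  have hd : ∀ ω, π * q ω ≤ p ω := hq'.dens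
  rw [hmarg.CH A B]
  have hlog : 0 ≤ Real.log ((L : ℝ) + 1) := Real.log_nonneg (by have := Nat.cast_nonneg (α := ℝ) L; linarith)
  have hM0 : 0 ≤ M := le_trans (by positivity) hM
  have hfl : ∀ ω, ⌊q ω / (δ * p ω)⌋₊ ≤ L := fun ω =>
    (lv_bd hp.nonneg hq.nonneg hδ hπ hd hL ω).1
  set r := lv p q δ L with hrdef
  have hr0 : ∀ w, 0 ≤ r w := lv_nonneg hp.nonneg hq.nonneg hδ hπ hd hL
  have hrm : Marg r q (fun w => w.1) := lv_marg hfl
  have hr : IsLaw r := ⟨hr0, by rw [hrm.sum, hq.sum_one]⟩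
  have h1 := CH_le_mix hr (fun w => A w.1) (fun w => B w.1) (fun w => w.2)
  rw [hrm.CH A B, Fin.sum_univ_succ] at h1
  -- the remainder
  have hz : law r (fun w => w.2) 0 * CH (cond r (fun w => w.2) 0) (fun w => A w.1)
      (fun w => B w.1) ≤ δ * M := by
    have hl : law r (fun w => w.2) 0 ≤ δ := by
      rw [hrdef, law_lv_zero]
      calc ∑ ω, lv p q δ L (ω, 0) ≤ ∑ ω, δ * p ω :=
            Finset.sum_le_sum fun ω _ => (lv_bd hp.nonneg hq.nonneg hδ hπ hd hL ω).2.2
        _ = δ := by rw [← Finset.mul_sum, hp.sum_one, mul_one]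
    have hl0 := law_nonneg hr0 (fun w => w.2) (0 : Fin (L + 1))
    rcases hl0.eq_or_lt with h0 | h0
    · rw [← h0, zero_mul]; positivity
    · have hb := hUp (Ω × Fin (L + 1)) (cond r (fun w => w.2) 0) (fun w => w.1)
        ⟨cond_nonneg hr0 _ _, sum_cond r _ h0.ne'⟩
      exact mul_le_mul hl hb (CH_nonneg (cond_nonneg hr0 _ _) _ _) hδ.le
  -- the sum of the levels
  have hN0 : 0 ≤ N := by
    refine le_trans (CH_nonneg (cond_nonneg hp.nonneg (fun _ => True) True) A B)
      (hN (fun _ => True) ?_)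
    have : Pb p (fun _ => True) = 1 := by
      unfold Pb; simp [hp.sum_one]
    rw [this, div_le_one (by positivity)]
    have := Nat.cast_nonneg (α := ℝ) L
    linarith
  have hs : ∀ i : Fin L, law r (fun w => w.2) i.succ * CH (cond r (fun w => w.2) i.succ)
      (fun w => A w.1) (fun w => B w.1) ≤
        law r (fun w => w.2) i.succ * N + δ / (L + 1) * M := by
    intro i
    have e1 : CH (cond r (fun w => w.2) i.succ) (fun w => A w.1) (fun w => B w.1) =
        CH (cond p (fun ω => (i : ℕ) < ⌊q ω / (δ * p ω)⌋₊) True) A B :=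
      (cond_lv_succ hδ i).CH A B
    rw [e1]
    have hl0 := law_nonneg hr0 (fun w => w.2) i.succ
    have hPN := Pb_nonneg hp.nonneg (fun ω => (i : ℕ) < ⌊q ω / (δ * p ω)⌋₊)
    by_cases hc : 1 / ((L : ℝ) + 1) ≤ Pb p (fun ω => (i : ℕ) < ⌊q ω / (δ * p ω)⌋₊)
    · have h2 := mul_le_mul_of_nonneg_left (hN _ hc) hl0
      have h3 : 0 ≤ δ / ((L : ℝ) + 1) * M := by positivity
      linarith
    · push Not at hc
      have hle : law r (fun w => w.2) i.succ ≤ δ / ((L : ℝ) + 1) := by
        rw [hrdef, law_lv_succ, div_eq_mul_one_div]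
        exact mul_le_mul_of_nonneg_left hc.le hδ.le
      have h3 : 0 ≤ law r (fun w => w.2) i.succ * N := mul_nonneg hl0 hN0
      rcases hPN.eq_or_lt with h0 | h0
      · have e0 : law r (fun w => w.2) i.succ = 0 := by
          rw [hrdef, law_lv_succ, ← h0, mul_zero]
        rw [e0]
        have : 0 ≤ δ / ((L : ℝ) + 1) * M := by positivity
        linarith
      · have hb := hUp Ω (cond p (fun ω => (i : ℕ) < ⌊q ω / (δ * p ω)⌋₊) True) (fun ω => ω)
          (isLaw_ev hp _ h0)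
        have h4 := mul_le_mul hle hb
          (CH_nonneg (cond_nonneg hp.nonneg _ _) _ _) (by positivity)
        linarith
  have hsum : ∑ i : Fin L, law r (fun w => w.2) i.succ * CH (cond r (fun w => w.2) i.succ)
      (fun w => A w.1) (fun w => B w.1) ≤ N + δ * M := by
    refine (Finset.sum_le_sum fun i _ => hs i).trans ?_
    rw [Finset.sum_add_distrib, ← Finset.sum_mul, Finset.sum_const, Finset.card_univ,
      Fintype.card_fin, nsmul_eq_mul]
    have htot : ∑ i : Fin L, law r (fun w => w.2) i.succ ≤ 1 := by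
      have h5 : ∑ j : Fin (L + 1), law r (fun w => w.2) j = 1 := by
        rw [← hr.sum_one]
        have := Finset.sum_subset (s₁ := univ.image (fun w : Ω × Fin (L + 1) => w.2))
          (s₂ := univ) (Finset.subset_univ _) (f := fun j => law r (fun w => w.2) j)
          (fun j _ hj => law_eq_zero_of_notMem r _ hj)
        rw [← this, sum_law]
      rw [Fin.sum_univ_succ] at h5
      have := law_nonneg hr0 (fun w => w.2) (0 : Fin (L + 1))
      linarith
    have h6 := mul_le_mul_of_nonneg_right htot hN0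
    have h7 : (L : ℝ) * (δ / ((L : ℝ) + 1) * M) ≤ δ * M := by
      have hLn := Nat.cast_nonneg (α := ℝ) L
      have : (L : ℝ) * (δ / ((L : ℝ) + 1) * M) = δ * M * (L / (L + 1)) := by field_simp
      rw [this]
      have h8 : (L : ℝ) / (L + 1) ≤ 1 := by
        rw [div_le_one (by positivity)]; linarith
      nlinarith [mul_nonneg hδ.le hM0]
    linarith
  have hlast : Real.log ((L + 1 : ℕ) : ℝ) ≤ e / 2 * M := by
    push_cast
    have := mul_le_mul_of_nonneg_left hM (show 0 ≤ e / 2 by positivity)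
    have e3 : e / 2 * (2 * Real.log ((L : ℝ) + 1) / e) = Real.log ((L : ℝ) + 1) := by
      field_simp
    rw [e3] at this
    exact this
  have : δ * M + δ * M = e / 2 * M := by rw [hδe]; ring
  linarith

end Pool.TIE
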