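import Pool.Agent.H88.TIE.Fx
import Pool.Agent.H81.SLP.Ctx3

/-!
# The core: the height over the total shape is near a function of the line, and near a function of
the time
-/

set_option autoImplicit false

namespace Pool.TIE

open Finset Real
open Pool.Agent.H49.Ent Pool.Agent.H32.Dense Pool.STK Pool.BFL Pool.MIC Pool.LBL Pool.GLM
open Pool.M5 Pool.SLO

/-! ### Polynomials -/

lemma eval_cons_rename {k : ℕ} (a : ℝ) (w : Fin k → ℝ) (P : Pl k) :
    MvPolynomial.eval (Fin.cons a w : Fin (k + 1) → ℝ) (MvPolynomial.rename Fin.succ P) =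
      MvPolynomial.eval w P := by
  rw [MvPolynomial.eval_rename]
  congr 1

lemma eval_mono {k : ℕ} (i : Fin k → ℕ) (w : Fin k → ℝ) :
    MvPolynomial.eval w (MvPolynomial.monomial (Finsupp.equivFunOnFinite.symm i) (1 : ℝ)) =
      mono i w := by
  rw [MvPolynomial.eval_monomial, one_mul, Finsupp.prod_fintype _ _ (fun _ => pow_zero _)]
  rfl

lemma coeff_aeval_X {K : ℕ} (q : Polynomial ℝ) (n : ℕ) :
    MvPolynomial.coeff (Finsupp.single 0 n) (Polynomial.aeval (MvPolynomial.X 0 : Pl 1) q) =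
      q.coeff n := by
  rw [Polynomial.aeval_eq_sum_range, MvPolynomial.coeff_sum]
  have h1 : ∀ i, MvPolynomial.coeff (Finsupp.single 0 n)
      (q.coeff i • (MvPolynomial.X 0 : Pl 1) ^ i) = if i = n then q.coeff i else 0 := by
    intro i
    rw [MvPolynomial.coeff_smul, MvPolynomial.coeff_X_pow]
    by_cases h : i = n
    · subst h; simp
    · have : Finsupp.single (0 : Fin 1) i ≠ Finsupp.single 0 n := fun e => h (by
        have := DFunLike.congr_fun e 0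
        simpa using this)
      rw [if_neg this, if_neg h, smul_zero]
  rw [Finset.sum_congr rfl fun i _ => h1 i, Finset.sum_ite_eq']
  by_cases h : n ∈ Finset.range (q.natDegree + 1)
  · rw [if_pos h]
  · rw [if_neg h]
    rw [Finset.mem_range] at h
    exact (Polynomial.coeff_eq_zero_of_natDegree_lt (by omega)).symm

lemma eval_split {K : ℕ} {q : Polynomial ℝ} (hq : q.natDegree ≤ K) (t : ℝ) :
    q.eval t = q.coeff 0 + ∑ j : Fin K, q.coeff (j.val + 1) * t ^ (j.val + 1) := by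
  rw [Polynomial.eval_eq_sum_range' (n := K + 1) (by omega), Finset.sum_range_succ']
  rw [pow_zero, mul_one, add_comm, Finset.sum_range]

lemma natDegree_le_of_lt {K : ℕ} {q : Polynomial ℝ} (h : q.degree < ((K + 1 : ℕ) : WithBot ℕ)) :
    q.natDegree ≤ K := by
  rw [Polynomial.natDegree_le_iff_coeff_eq_zero]
  intro n hn
  exact (Polynomial.degree_lt_iff_coeff_zero _ _).1 h n hn

namespace Cd

variable {k : ℕ} {D : Cd k} {K k₀ c₂ s c₃ x : ℕ} {δ : ℝ}

/-! ### The time at the sample -/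

/-- The value of the time polynomial. -/
noncomputable def Tv (D : Cd k) (ω : D.Ω) : ℝ :=
  1 / D.be * (D.ta ω - D.Sw ω + 2 ^ D.B) - (D.hi ω : ℝ)

lemma The_eval (u : Om D K) : MvPolynomial.eval (D.zz u.2) (D.The K u) = D.Tv u.2 := by
  unfold The Tv zz Sw
  simp only [map_sub, map_mul, map_add, MvPolynomial.eval_C, MvPolynomial.eval_X,
    eval_cons_rename, Fin.cons_zero]

lemma Tv_be (ω : D.Ω) : D.be * (D.Tv ω - D.th ω) = D.ta ω - (D.al ω + D.be * D.th ω) := by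
  have h1 := be_pos (D := D)
  unfold Tv al
  field_simp
  ring

lemma Tv_near (hD : D.Ok K) (ω : D.Ω) :
    D.th ω ≤ D.Tv ω ∧ D.Tv ω - D.th ω ≤ 1 / 2 ^ (D.M - D.r) := by
  have h0 := be_pos (D := D)
  have h1 := Tv_be (D := D) ω
  have h2 := ta_near hD ω
  have h3 := ta_near' hD ω
  constructor
  · by_contra hc
    push Not at hc
    have : D.be * (D.Tv ω - D.th ω) < 0 := mul_neg_of_pos_of_neg h0 (by linarith)
    linarith
  · have h4 : D.be * (D.Tv ω - D.th ω) ≤ 1 / 2 ^ D.X := by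
      rw [h1]
      exact (le_abs_self _).trans h2
    have hr := r_le_M hD
    have h5 : (2 : ℝ) ^ D.X * 2 ^ (D.B + 1) = 2 ^ (D.M - D.r) * 2 ^ D.r := by
      rw [← pow_add, ← pow_add]
      congr 1
      unfold M at hr ⊢
      omega
    have h6 : (0 : ℝ) < 2 ^ (D.M - D.r) := by positivity
    have h7 : (0 : ℝ) < 2 ^ D.r := by positivity
    have h8 : (0 : ℝ) < 2 ^ D.X := by positivity
    have h9 : (0 : ℝ) < 2 ^ (D.B + 1) := by positivity
    have h10 : D.Tv ω - D.th ω = (D.be * (D.Tv ω - D.th ω)) * (2 ^ D.r / 2 ^ (D.B + 1)) := by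
      unfold be
      field_simp
    rw [h10]
    calc (D.be * (D.Tv ω - D.th ω)) * (2 ^ D.r / 2 ^ (D.B + 1)) ≤
          1 / 2 ^ D.X * (2 ^ D.r / 2 ^ (D.B + 1)) :=
          mul_le_mul_of_nonneg_right h4 (by positivity)
      _ = 1 / 2 ^ (D.M - D.r) := by
          rw [div_mul_div_comm, one_mul, h5]
          field_simp

lemma Tv_abs (hD : D.Ok K) (ω : D.Ω) : |D.Tv ω| ≤ 1 := by
  obtain ⟨h1, h2⟩ := Tv_near hD ω
  obtain ⟨h3, h4⟩ := th_mem (D := D) ω
  have h5 : D.th ω ≤ 1 - 1 / 2 ^ (D.M - D.r) := by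
    have h6 : (0 : ℝ) < 2 ^ (D.M - D.r) := by positivity
    have h7 : (D.lo ω : ℝ) ≤ 2 ^ (D.M - D.r) - 1 := by
      have := (lo_mem (D := D) ω).2
      have : D.lo ω ≤ 2 ^ (D.M - D.r) - 1 := by omega
      exact_mod_cast this
    unfold th
    rw [div_le_iff₀ h6]
    have : (1 - 1 / (2 : ℝ) ^ (D.M - D.r)) * 2 ^ (D.M - D.r) = 2 ^ (D.M - D.r) - 1 := by
      field_simp
    rw [this]
    exact h7
  rw [abs_of_nonneg (by linarith)]
  linarith

/-! ### Values -/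

lemma psi_evalR (u : Om D K) (y : ℝ) : (D.psi K u).eval y =
    ∑ i : Mon k K, mono (i : Fin k → ℕ) (D.w u.2) * (D.phi K u i).eval y := by
  unfold psi
  rw [Polynomial.eval_finsetSum]
  refine Finset.sum_congr rfl fun i _ => ?_
  rw [Polynomial.eval_mul, Polynomial.eval_C]

lemma Ft_eval (u : Om D K) : MvPolynomial.eval (D.zz u.2) (D.Ft K c₂ s u) =
    (D.psi K u).eval (D.Tv u.2) + (D.rcp K c₂ s u).eval (D.Tv u.2) := by
  unfold Ft
  rw [map_add, map_sum, psi_evalR, eval_aeval, The_eval]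
  congr 1
  refine Finset.sum_congr rfl fun i _ => ?_
  rw [map_mul, eval_aeval, The_eval]
  unfold zz
  rw [eval_cons_rename, eval_mono, mul_comm]

lemma mono_absR (hD : D.Ok K) (ω : D.Ω) (i : Fin k → ℕ) : |mono i (D.w ω)| ≤ 1 := by
  unfold mono
  rw [Finset.abs_prod]
  refine Finset.prod_le_one (fun _ _ => abs_nonneg _) fun j _ => ?_
  rw [abs_pow]
  exact pow_le_one₀ (abs_nonneg _) (w_abs hD ω j)

lemma phi_degR {u : Om D K} (hA : D.Apx K k₀ δ u) (i : Mon k K) : (D.phi K u i).natDegree ≤ K := by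
  refine natDegree_le_of_lt ?_
  unfold phi
  have hinj : Set.InjOn (fun j => D.th (u.1 j)) (↑(Finset.univ : Finset (Fin (K + 1)))) := by
    intro j _ j' _ e
    by_contra hne
    have h1 := hA.sep j j' hne
    simp only at e
    rw [e, sub_self, abs_zero] at h1
    have : (0 : ℝ) < (2 : ℝ) ^ (-(k₀ : ℤ)) := by positivity
    linarith
  have := Lagrange.degree_interpolate_lt (s := Finset.univ) (v := fun j => D.th (u.1 j))
    (fun j => MvPolynomial.coeff (Finsupp.equivFunOnFinite.symm (i : Fin k → ℕ)) (D.F (u.1 j)))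
    hinj
  rwa [Finset.card_univ, Fintype.card_fin] at this

lemma rcp_degR (u : Om D K) : (D.rcp K c₂ s u).natDegree ≤ K := by
  unfold rcp
  refine Polynomial.natDegree_sum_le_of_forall_le _ _ fun j _ => ?_
  refine (Polynomial.natDegree_C_mul_le _ _).trans ?_
  rw [Polynomial.natDegree_X_pow]
  omega

lemma psi_degR {u : Om D K} (hA : D.Apx K k₀ δ u) : (D.psi K u).natDegree ≤ K := by
  unfold psi
  refine Polynomial.natDegree_sum_le_of_forall_le _ _ fun i _ => ?_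
  exact (Polynomial.natDegree_C_mul_le _ _).trans (phi_degR hA i)

lemma dif_degR (hD : D.Ok K) {u : Om D K} (hA : D.Apx K k₀ δ u) :
    (D.dif K c₂ u).natDegree ≤ K := by
  unfold dif
  refine (Polynomial.natDegree_C_mul_le _ _).trans ?_
  exact (Polynomial.natDegree_sub_le _ _).trans (max_le (Pt_deg hD _) (psi_degR hA))

lemma lip_deg {q : Polynomial ℝ} (hq : q.natDegree ≤ K) {t u : ℝ} (ht : |t| ≤ 1) (hu : |u| ≤ 1) :
    |q.eval t - q.eval u| ≤ K * l1 q * |t - u| := by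
  refine (lip_l1 q ht hu).trans ?_
  refine mul_le_mul_of_nonneg_right ?_ (abs_nonneg _)
  exact mul_le_mul_of_nonneg_right (by exact_mod_cast hq) (l1_nn q)

/-- (a): from the time polynomial to the time. -/
lemma Ft_near (hD : D.Ok K) {u : Om D K} (hA : D.Apx K k₀ δ u) (hrX : D.r + x ≤ D.X)
    (hl : (∑ i, l1 (D.phi K u i)) + l1 (D.rcp K c₂ s u) ≤ 2 ^ c₃) :
    |MvPolynomial.eval (D.zz u.2) (D.Ft K c₂ s u) -
      ((D.psi K u).eval (D.th u.2) + (D.rcp K c₂ s u).eval (D.th u.2))| ≤ K * 2 ^ c₃ / 2 ^ x := by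
  rw [Ft_eval]
  obtain ⟨h1, h2⟩ := Tv_near hD u.2
  have hT := Tv_abs hD u.2
  have ht := th_abs (D := D) u.2
  have h3 : |D.Tv u.2 - D.th u.2| ≤ 1 / 2 ^ x := by
    rw [abs_of_nonneg (by linarith)]
    refine h2.trans ?_
    refine one_div_le_one_div_of_le (by positivity) (pow_le_pow_right₀ (by norm_num) ?_)
    unfold M
    omega
  have h4 : |(D.psi K u).eval (D.Tv u.2) - (D.psi K u).eval (D.th u.2)| ≤
      K * (∑ i, l1 (D.phi K u i)) * (1 / 2 ^ x) := by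
    rw [psi_evalR, psi_evalR, ← Finset.sum_sub_distrib]
    refine (Finset.abs_sum_le_sum_abs _ _).trans ?_
    rw [Finset.mul_sum, Finset.sum_mul]
    refine Finset.sum_le_sum fun i _ => ?_
    rw [← mul_sub, abs_mul]
    have h5 := lip_deg (phi_degR hA i) hT ht
    calc |mono (i : Fin k → ℕ) (D.w u.2)| *
          |(D.phi K u i).eval (D.Tv u.2) - (D.phi K u i).eval (D.th u.2)| ≤
          1 * (K * l1 (D.phi K u i) * |D.Tv u.2 - D.th u.2|) :=
          mul_le_mul (mono_absR hD _ _) h5 (abs_nonneg _) (by norm_num)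
      _ = K * l1 (D.phi K u i) * |D.Tv u.2 - D.th u.2| := one_mul _
      _ ≤ _ := mul_le_mul_of_nonneg_left h3 (mul_nonneg (Nat.cast_nonneg _) (l1_nn _))
  have h5 : |(D.rcp K c₂ s u).eval (D.Tv u.2) - (D.rcp K c₂ s u).eval (D.th u.2)| ≤
      K * l1 (D.rcp K c₂ s u) * (1 / 2 ^ x) :=
    (lip_deg (rcp_degR u) hT ht).trans
      (mul_le_mul_of_nonneg_left h3 (mul_nonneg (Nat.cast_nonneg _) (l1_nn _)))
  have e : (D.psi K u).eval (D.Tv u.2) + (D.rcp K c₂ s u).eval (D.Tv u.2) -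
      ((D.psi K u).eval (D.th u.2) + (D.rcp K c₂ s u).eval (D.th u.2)) =
      ((D.psi K u).eval (D.Tv u.2) - (D.psi K u).eval (D.th u.2)) +
      ((D.rcp K c₂ s u).eval (D.Tv u.2) - (D.rcp K c₂ s u).eval (D.th u.2)) := by ring
  rw [e]
  refine (abs_add_le _ _).trans ((add_le_add h4 h5).trans ?_)
  have h6 : (K : ℝ) * (∑ i, l1 (D.phi K u i)) * (1 / 2 ^ x) +
      K * l1 (D.rcp K c₂ s u) * (1 / 2 ^ x) =
      K * ((∑ i, l1 (D.phi K u i)) + l1 (D.rcp K c₂ s u)) / 2 ^ x := by ring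
  rw [h6]
  exact div_le_div_of_nonneg_right (mul_le_mul_of_nonneg_left hl (Nat.cast_nonneg _))
    (by positivity)

/-- (b): the recovered difference. -/
lemma rcp_near (hD : D.Ok K) {u : Om D K} (hA : D.Apx K k₀ δ u) (hs : c₂ + x ≤ s) :
    |(D.rcp K c₂ s u).eval (D.th u.2) - ((D.Pt u.2).eval (D.th u.2) -
      (D.psi K u).eval (D.th u.2) - 2 ^ c₂ * (D.dif K c₂ u).coeff 0)| ≤ K / 2 ^ x := by
  have h2 : (0 : ℝ) < 2 ^ c₂ := by positivity
  have e1 : (D.Pt u.2).eval (D.th u.2) - (D.psi K u).eval (D.th u.2) =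
      2 ^ c₂ * (D.dif K c₂ u).eval (D.th u.2) := by
    unfold dif
    rw [Polynomial.eval_mul, Polynomial.eval_C, Polynomial.eval_sub]
    field_simp
  rw [e1, eval_split (dif_degR hD hA)]
  have e2 : (D.rcp K c₂ s u).eval (D.th u.2) = ∑ j : Fin K, (2 ^ c₂ *
      ((rk s (D.kap K c₂ u) (Finsupp.single 0 (j.val + 1)) : ℝ) / 2 ^ s)) *
        D.th u.2 ^ (j.val + 1) := by
    unfold rcp
    rw [Polynomial.eval_finsetSum]
    refine Finset.sum_congr rfl fun j _ => ?_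
    rw [Polynomial.eval_mul, Polynomial.eval_C, Polynomial.eval_pow, Polynomial.eval_X]
  have e3 : (D.rcp K c₂ s u).eval (D.th u.2) - (2 ^ c₂ * ((D.dif K c₂ u).coeff 0 +
      ∑ j : Fin K, (D.dif K c₂ u).coeff (j.val + 1) * D.th u.2 ^ (j.val + 1)) -
      2 ^ c₂ * (D.dif K c₂ u).coeff 0) = ∑ j : Fin K, 2 ^ c₂ *
      ((rk s (D.kap K c₂ u) (Finsupp.single 0 (j.val + 1)) : ℝ) / 2 ^ s -
        (D.dif K c₂ u).coeff (j.val + 1)) * D.th u.2 ^ (j.val + 1) := by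
    rw [e2]
    have : ∀ A B : ℝ, 2 ^ c₂ * (A + B) - 2 ^ c₂ * A = 2 ^ c₂ * B := fun A B => by ring
    rw [this, Finset.mul_sum, ← Finset.sum_sub_distrib]
    refine Finset.sum_congr rfl fun j _ => ?_
    ring
  rw [e3]
  refine (Finset.abs_sum_le_sum_abs _ _).trans ?_
  have h3 : ∀ j : Fin K, |2 ^ c₂ *
      ((rk s (D.kap K c₂ u) (Finsupp.single 0 (j.val + 1)) : ℝ) / 2 ^ s -
        (D.dif K c₂ u).coeff (j.val + 1)) * D.th u.2 ^ (j.val + 1)| ≤ 1 / 2 ^ x := by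
    intro j
    rw [abs_mul, abs_mul, abs_of_pos h2, abs_pow]
    have h4 : |(rk s (D.kap K c₂ u) (Finsupp.single 0 (j.val + 1)) : ℝ) / 2 ^ s -
        (D.dif K c₂ u).coeff (j.val + 1)| ≤ 1 / 2 ^ s := by
      unfold rk
      have hne : Finsupp.single (0 : Fin 1) (j.val + 1) ≠ 0 := fun e => by
        have := DFunLike.congr_fun e 0
        simp at this
      rw [if_neg hne]
      unfold kap
      rw [coeff_aeval_X (K := K), abs_sub_comm]
      exact dg_le s _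
    have h5 : |D.th u.2| ^ (j.val + 1) ≤ 1 := pow_le_one₀ (abs_nonneg _) (th_abs u.2)
    have h6 : (2 : ℝ) ^ c₂ * (1 / 2 ^ s) ≤ 1 / 2 ^ x := by
      rw [mul_one_div, div_le_div_iff₀ (by positivity) (by positivity), one_mul, ← pow_add]
      exact pow_le_pow_right₀ (by norm_num) hs
    calc 2 ^ c₂ * |(rk s (D.kap K c₂ u) (Finsupp.single 0 (j.val + 1)) : ℝ) / 2 ^ s -
        (D.dif K c₂ u).coeff (j.val + 1)| * |D.th u.2| ^ (j.val + 1) ≤
          2 ^ c₂ * (1 / 2 ^ s) * 1 :=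
          mul_le_mul (mul_le_mul_of_nonneg_left h4 h2.le) h5 (by positivity) (by positivity)
      _ ≤ _ := by rw [mul_one]; exact h6
  refine (Finset.sum_le_sum fun j _ => h3 j).trans (le_of_eq ?_)
  rw [Finset.sum_const, Finset.card_univ, Fintype.card_fin, nsmul_eq_mul, mul_one_div]

/-- The number of monomials. -/
lemma card_MonR (k K : ℕ) : ((Mon k K).card : ℝ) ≤ ((K : ℝ) + 1) ^ k := by
  have h1 : (Mon k K).card ≤ (K + 1) ^ k := by
    unfold Mon
    refine (Finset.card_filter_le _ _).trans (le_of_eq ?_)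
    rw [Fintype.card_piFinset, Finset.prod_const, Finset.card_range, Finset.card_univ,
      Fintype.card_fin]
  exact_mod_cast h1

/-- The interpolated leaf at the time of the sample. -/
lemma psi_near (hD : D.Ok K) {u : Om D K} (hA : D.Apx K k₀ δ u)
    (hδ : ((K : ℝ) + 1) ^ k * δ ≤ 1 / 2 ^ x) :
    |(D.psi K u).eval (D.th u.2) - (MvPolynomial.eval (D.w u.2) (D.F u.2) -
      MvPolynomial.coeff 0 (D.F u.2))| ≤ 1 / 2 ^ x := by
  have h0 : MvPolynomial.eval (0 : Fin k → ℝ) (D.F u.2) = MvPolynomial.coeff 0 (D.F u.2) := by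
    rw [MvPolynomial.eval_zero]
    rfl
  rw [← h0, eval_sub_zero (hD.F_deg u.2), psi_evalR, ← Finset.sum_sub_distrib]
  refine (Finset.abs_sum_le_sum_abs _ _).trans ?_
  have h1 : ∀ i : Mon k K, |mono (i : Fin k → ℕ) (D.w u.2) * (D.phi K u i).eval (D.th u.2) -
      MvPolynomial.coeff (Finsupp.equivFunOnFinite.symm (i : Fin k → ℕ)) (D.F u.2) *
        mono (i : Fin k → ℕ) (D.w u.2)| ≤ δ := by
    intro i
    have e : mono (i : Fin k → ℕ) (D.w u.2) * (D.phi K u i).eval (D.th u.2) -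
      MvPolynomial.coeff (Finsupp.equivFunOnFinite.symm (i : Fin k → ℕ)) (D.F u.2) *
        mono (i : Fin k → ℕ) (D.w u.2) = -(mono (i : Fin k → ℕ) (D.w u.2) *
        (MvPolynomial.coeff (Finsupp.equivFunOnFinite.symm (i : Fin k → ℕ)) (D.F u.2) -
          (D.phi K u i).eval (D.th u.2))) := by ring
    rw [e, abs_neg, abs_mul]
    have h2 := mul_le_mul (mono_absR hD u.2 (i : Fin k → ℕ)) (hA.apx i) (abs_nonneg _)
      (by norm_num : (0 : ℝ) ≤ 1)
    linarith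
  refine (Finset.sum_le_sum fun i _ => h1 i).trans ?_
  rw [Finset.sum_const, nsmul_eq_mul, Finset.card_univ, Fintype.card_coe]
  by_cases hn : Nonempty (Mon k K)
  · obtain ⟨i⟩ := hn
    have hδ0 : 0 ≤ δ := (abs_nonneg _).trans (hA.apx i)
    exact (mul_le_mul_of_nonneg_right (card_MonR k K) hδ0).trans hδ
  · have : (Mon k K).card = 0 := by
      rw [Finset.card_eq_zero]
      by_contra h
      obtain ⟨i, hi⟩ := Finset.nonempty_iff_ne_empty.2 h
      exact hn ⟨⟨i, hi⟩⟩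
    rw [this]
    simp

/-- The height over the total shape as a function of the line. -/
noncomputable def f1 (D : Cd k) (K c₂ c₃ : ℕ) (u : Om D K) : ℝ :=
  ((D.n1 u.2 : ℝ) / 2 ^ D.h + 2 ^ c₂ * (D.dif K c₂ u).coeff 0) / 2 ^ c₃

/-- The height over the total shape as a function of the time. -/
noncomputable def f2 (D : Cd k) (K c₂ s c₃ : ℕ) (u : Om D K) : ℝ :=
  ((D.n2 u.2 : ℝ) / 2 ^ D.h + MvPolynomial.coeff 0 (D.F u.2) -
    (D.rcp K c₂ s u).eval (D.th u.2)) / 2 ^ c₃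

lemma near1 (hD : D.Ok K) {u : Om D K} (hA : D.Apx K k₀ δ u) (hxh : x ≤ D.h)
    (hs : c₂ + x ≤ s) (hrX : D.r + x ≤ D.X)
    (hl : (∑ i, l1 (D.phi K u i)) + l1 (D.rcp K c₂ s u) ≤ 2 ^ c₃) :
    |(D.nu u.2 - MvPolynomial.eval (D.zz u.2) (D.Ft K c₂ s u)) / 2 ^ c₃ - D.f1 K c₂ c₃ u| ≤
      (2 * K + 2) / 2 ^ x := by
  have h1 := Ft_near hD hA hrX hl
  have h2 := rcp_near hD hA hs
  have h3 := nut_near hD u.2
  have hc : (1 : ℝ) ≤ 2 ^ c₃ := one_le_pow₀ (by norm_num)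
  have hh : (2 : ℝ) / 2 ^ D.h ≤ 2 / 2 ^ x :=
    div_le_div_of_nonneg_left (by norm_num) (by positivity) (pow_le_pow_right₀ (by norm_num) hxh)
  have e : (D.nu u.2 - MvPolynomial.eval (D.zz u.2) (D.Ft K c₂ s u)) / 2 ^ c₃ -
      D.f1 K c₂ c₃ u = (-(MvPolynomial.eval (D.zz u.2) (D.Ft K c₂ s u) -
      ((D.psi K u).eval (D.th u.2) + (D.rcp K c₂ s u).eval (D.th u.2))) -
      ((D.rcp K c₂ s u).eval (D.th u.2) - ((D.Pt u.2).eval (D.th u.2) -
      (D.psi K u).eval (D.th u.2) - 2 ^ c₂ * (D.dif K c₂ u).coeff 0)) -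
      (D.nut u.2 - D.nu u.2)) / 2 ^ c₃ := by
    unfold f1 nut
    ring
  rw [e, abs_div, abs_of_pos (by positivity : (0 : ℝ) < 2 ^ c₃), div_le_iff₀ (by positivity)]
  have hx0 : (0 : ℝ) < 2 ^ x := by positivity
  have h4 : (K : ℝ) * 2 ^ c₃ / 2 ^ x + K / 2 ^ x + 2 / 2 ^ x ≤ (2 * K + 2) / 2 ^ x * 2 ^ c₃ := by
    have e2 : (K : ℝ) * 2 ^ c₃ / 2 ^ x + K / 2 ^ x + 2 / 2 ^ x =
        (K * 2 ^ c₃ + (K + 2)) / 2 ^ x := by ring
    have e3 : (2 * (K : ℝ) + 2) / 2 ^ x * 2 ^ c₃ = ((2 * K + 2) * 2 ^ c₃) / 2 ^ x := by ring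
    rw [e2, e3]
    refine div_le_div_of_nonneg_right ?_ hx0.le
    have : (0 : ℝ) ≤ K := Nat.cast_nonneg _
    nlinarith
  refine le_trans ?_ h4
  rw [abs_le] at h1 h2 h3 ⊢
  constructor <;> linarith [h1.1, h1.2, h2.1, h2.2, h3.1, h3.2]

lemma near2 (hD : D.Ok K) {u : Om D K} (hA : D.Apx K k₀ δ u) (hxh : x ≤ D.h)
    (hδ : ((K : ℝ) + 1) ^ k * δ ≤ 1 / 2 ^ x) (hrX : D.r + x ≤ D.X)
    (hl : (∑ i, l1 (D.phi K u i)) + l1 (D.rcp K c₂ s u) ≤ 2 ^ c₃) :
    |(D.nu u.2 - MvPolynomial.eval (D.zz u.2) (D.Ft K c₂ s u)) / 2 ^ c₃ - D.f2 K c₂ s c₃ u| ≤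
      (2 * K + 2) / 2 ^ x := by
  have h1 := Ft_near hD hA hrX hl
  have h2 := psi_near hD hA hδ
  have h3 := dg_le D.h (D.nu u.2 - MvPolynomial.eval (D.w u.2) (D.F u.2))
  have hc : (1 : ℝ) ≤ 2 ^ c₃ := one_le_pow₀ (by norm_num)
  have hh : (1 : ℝ) / 2 ^ D.h ≤ 1 / 2 ^ x :=
    div_le_div_of_nonneg_left (by norm_num) (by positivity) (pow_le_pow_right₀ (by norm_num) hxh)
  have e : (D.nu u.2 - MvPolynomial.eval (D.zz u.2) (D.Ft K c₂ s u)) / 2 ^ c₃ -
      D.f2 K c₂ s c₃ u = (-(MvPolynomial.eval (D.zz u.2) (D.Ft K c₂ s u) -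
      ((D.psi K u).eval (D.th u.2) + (D.rcp K c₂ s u).eval (D.th u.2))) -
      ((D.psi K u).eval (D.th u.2) - (MvPolynomial.eval (D.w u.2) (D.F u.2) -
      MvPolynomial.coeff 0 (D.F u.2))) +
      (D.nu u.2 - MvPolynomial.eval (D.w u.2) (D.F u.2) -
        (dg D.h (D.nu u.2 - MvPolynomial.eval (D.w u.2) (D.F u.2)) : ℝ) / 2 ^ D.h)) / 2 ^ c₃ := by
    unfold f2 n2
    ring
  rw [e, abs_div, abs_of_pos (by positivity : (0 : ℝ) < 2 ^ c₃), div_le_iff₀ (by positivity)]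
  have hx0 : (0 : ℝ) < 2 ^ x := by positivity
  have h4 : (K : ℝ) * 2 ^ c₃ / 2 ^ x + 1 / 2 ^ x + 1 / 2 ^ x ≤
      (2 * K + 2) / 2 ^ x * 2 ^ c₃ := by
    have e2 : (K : ℝ) * 2 ^ c₃ / 2 ^ x + 1 / 2 ^ x + 1 / 2 ^ x =
        (K * 2 ^ c₃ + 2) / 2 ^ x := by ring
    have e3 : (2 * (K : ℝ) + 2) / 2 ^ x * 2 ^ c₃ = ((2 * K + 2) * 2 ^ c₃) / 2 ^ x := by ring
    rw [e2, e3]
    refine div_le_div_of_nonneg_right ?_ hx0.le
    have : (0 : ℝ) ≤ K := Nat.cast_nonneg _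
    nlinarith
  refine le_trans ?_ h4
  rw [abs_le] at h1 h2 h3 ⊢
  constructor <;> linarith [h1.1, h1.2, h2.1, h2.2, h3.1, h3.2]

end Cd

end Pool.TIE
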